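import Pool.Agent.QR.Elliptic

/-!
# Theorem Q for logarithms and for elliptic logarithms
-/

namespace Pool.Agent.QR

open Module Submodule Pool.Agent.EBM

theorem mainAB (hB : BakerAll) (F : Subfield ℂ) (r : ℕ) (t : Fin r → ℂ)
    (hFt : ((∀ c : ℂ, c ∈ F ↔ ∃ q : ℚ, c = q) ∧ ∀ i, IsAlgebraic ℚ (Complex.exp (t i))) ∨
      ∃ ω₁ ω₂ : ℂ, (ω₂ / ω₁).im ≠ 0 ∧
        IsAlgebraic ℚ (60 * ∑' q : ℤ × ℤ,
          if q = 0 then (0 : ℂ) else 1 / ((q.1 : ℂ) * ω₁ + (q.2 : ℂ) * ω₂) ^ 4) ∧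
        IsAlgebraic ℚ (140 * ∑' q : ℤ × ℤ,
          if q = 0 then (0 : ℂ) else 1 / ((q.1 : ℂ) * ω₁ + (q.2 : ℂ) * ω₂) ^ 6) ∧
        (∀ c : ℂ, c ∈ F ↔ ∃ a b a' b' : ℚ,
          c * ω₁ = (a : ℂ) * ω₁ + (b : ℂ) * ω₂ ∧ c * ω₂ = (a' : ℂ) * ω₁ + (b' : ℂ) * ω₂) ∧
        ∀ i, (∃ a b : ℤ, t i = (a : ℂ) * ω₁ + (b : ℂ) * ω₂) ∨
          IsAlgebraic ℚ (1 / t i ^ 2 + ∑' q : ℤ × ℤ,
            if q = 0 then (0 : ℂ) else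
              (1 / (t i - ((q.1 : ℂ) * ω₁ + (q.2 : ℂ) * ω₂)) ^ 2
                - 1 / ((q.1 : ℂ) * ω₁ + (q.2 : ℂ) * ω₂) ^ 2)))
    (ht : LinearIndependent F t) (E : Set (Submodule F ℂ))
    (hE : E = {W | W ≤ span F (Set.range t) ∧ finrank F W = 2 ∧
      ∃ x ∈ W, ∃ y ∈ W, LinearIndependent F ![x, y] ∧
        ∃ P : MvPolynomial (Fin 2) ℂ, P ≠ 0 ∧ P.totalDegree ≤ 2 ∧
          (∀ m, IsAlgebraic ℚ (P.coeff m)) ∧ MvPolynomial.eval ![x, y] P = 0}) :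
    (∀ U ≤ span F (Set.range t), finrank F U = 3 → {W ∈ E | W ≤ U}.encard ≤ 3) ∧
    (∀ x : ℂ, x ≠ 0 → {W ∈ E | x ∈ W}.encard ≤ (r - 1 : ℕ)) := by
  have hE' : E = ExcP (span F (Set.range t)) := hE
  subst hE'
  rcases hFt with ⟨hF, he⟩ | ⟨ω₁, ω₂, him, hg2, hg3, hF, he⟩
  · exact both (sub_rat F hF) r t ht (free_logF hB F hF he)
  · obtain ⟨L, rfl, rfl⟩ := ZCM.exists_periodPair ω₁ ω₂ him
    have h2 : IsAlgebraic ℚ L.g₂ := by rw [ZCM.g₂_eq_tsum]; exact hg2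
    have h3 : IsAlgebraic ℚ L.g₃ := by rw [ZCM.g₃_eq_tsum]; exact hg3
    have hF' : ∀ c, c ∈ F ↔ c ∈ EndF L := fun c => (hF c).trans (endF_iff L c).symm
    refine both (sub_endF L F hF') r t ht (free_ell L h2 h3 F hF' fun i => ?_)
    rcases he i with ⟨a, b, hab⟩ | h
    · exact Or.inl (PeriodPair.mem_lattice.2 ⟨a, b, hab.symm⟩)
    · exact Or.inr (by rw [CHU.P_eq_tsum]; exact h)

end Pool.Agent.QR
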