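import Pool.Agent.QR.Final
import Pool.Agent.EBM.BakerE
import Pool.Agent.CHU.Tr
import Pool.Agent.ZCM.Bridge

/-!
# Exceptional planes for logarithms and for elliptic logarithms

The space spanned over the endomorphism field `F` by elliptic logarithms of algebraic points is
`Free` over the algebraic numbers, by the elliptic Baker theorem; the space spanned over `ℚ` by
logarithms of algebraic numbers is `Free` by Baker's theorem.
-/

namespace Pool.Agent.QR

open Module Submodule Pool.Agent.EBM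

theorem sub_endF (L : PeriodPair) (F : Subfield ℂ) (hF : ∀ c, c ∈ F ↔ c ∈ EndF L) :
    Sub F (algebraicClosure ℚ ℂ) ℂ := fun c =>
  ⟨⟨(c : ℂ), mem_algebraicClosure_iff.2 (endF_alg L ((hF c).1 c.2))⟩, rfl⟩

theorem elog_span (L : PeriodPair) (h2 : IsAlgebraic ℚ L.g₂) (h3 : IsAlgebraic ℚ L.g₃)
    (F : Subfield ℂ) (hF : ∀ c, c ∈ F ↔ c ∈ EndF L)
    {ι : Type*} {p : ι → ℂ} (hp : ∀ j, p j ∈ ELog L) {x : ℂ}
    (hx : x ∈ span F (Set.range p)) : x ∈ ELog L := by
  induction hx using span_induction with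
  | mem x h => obtain ⟨i, rfl⟩ := h; exact hp i
  | zero => exact elog_zero L
  | add x y _ _ hx hy => exact elog_add L h2 h3 hx hy
  | smul q x _ hx => exact elog_mul L h2 h3 ((hF q).1 q.2) hx

theorem free_ell (L : PeriodPair) (h2 : IsAlgebraic ℚ L.g₂) (h3 : IsAlgebraic ℚ L.g₃)
    (F : Subfield ℂ) (hF : ∀ c, c ∈ F ↔ c ∈ EndF L)
    {ι : Type*} {p : ι → ℂ} (hp : ∀ j, p j ∈ ELog L) :
    Free (algebraicClosure ℚ ℂ) (span F (Set.range p)) := by
  intro κ _ v hv hi a c h
  have ha : ∀ a : algebraicClosure ℚ ℂ, IsAlgebraic ℚ (a : ℂ) := fun a =>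
    mem_algebraicClosure_iff.1 a.2
  have := ebaker L h2 h3 v (fun j => elog_span L h2 h3 F hF hp (hv j)) (fun c hc h0 j => by
    have h1 := Fintype.linearIndependent_iff.1 hi (fun j => ⟨c j, (hF _).2 (hc j)⟩) h0 j
    exact congrArg (fun z : F => (z : ℂ)) h1) (fun i => (c i : ℂ)) a (fun i => ha _) (ha a) h
  exact ⟨Subtype.ext this.1, fun i => Subtype.ext (this.2 i)⟩

theorem sub_rat (F : Subfield ℂ) (hF : ∀ c, c ∈ F ↔ ∃ q : ℚ, c = q) :
    Sub F (algebraicClosure ℚ ℂ) ℂ := fun c => by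
  obtain ⟨q, hq⟩ := (hF c).1 c.2
  obtain ⟨d, hd⟩ := subQ q
  refine ⟨d, ?_⟩
  rw [hd, eq_ratCast, ← hq]
  rfl

theorem exp_spanF (F : Subfield ℂ) (hF : ∀ c, c ∈ F ↔ ∃ q : ℚ, c = q)
    {ι : Type*} {t : ι → ℂ} (he : ∀ i, IsAlgebraic ℚ (Complex.exp (t i))) {x : ℂ}
    (hx : x ∈ span F (Set.range t)) : IsAlgebraic ℚ (Complex.exp x) := by
  have h : x ∈ span ℚ (Set.range t) := by
    induction hx using span_induction with
    | mem x h => exact subset_span h
    | zero => exact zero_mem _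
    | add x y _ _ hx hy => exact add_mem hx hy
    | smul c x _ hx =>
      obtain ⟨q, hq⟩ := (hF c).1 c.2
      have : c • x = q • x := by
        rw [qsmul, ← hq]
        rfl
      rw [this]
      exact smul_mem _ _ hx
  exact exp_span he h

theorem free_logF (hB : BakerAll) (F : Subfield ℂ) (hF : ∀ c, c ∈ F ↔ ∃ q : ℚ, c = q)
    {ι : Type*} {t : ι → ℂ} (he : ∀ i, IsAlgebraic ℚ (Complex.exp (t i))) :
    Free (algebraicClosure ℚ ℂ) (span F (Set.range t)) := by
  intro κ _ v hv hi a c h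
  have ha : ∀ a : algebraicClosure ℚ ℂ, IsAlgebraic ℚ (a : ℂ) := fun a =>
    mem_algebraicClosure_iff.1 a.2
  have hi' : LinearIndependent ℚ v := by
    rw [Fintype.linearIndependent_iff] at hi ⊢
    intro g hg j
    have := hi (fun j => ⟨(g j : ℂ), (hF _).2 ⟨g j, rfl⟩⟩) (by
      rw [← hg]
      refine Finset.sum_congr rfl fun i _ => ?_
      rw [qsmul]
      rfl) j
    have h2 : ((g j : ℚ) : ℂ) = 0 := congrArg (fun z : F => (z : ℂ)) this
    exact_mod_cast h2
  have := hB κ v hi' (fun i => exp_spanF F hF he (hv i)) (fun i => (c i : ℂ)) a (fun i => ha _)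
    (ha a) h
  exact ⟨Subtype.ext this.1, fun i => Subtype.ext (this.2 i)⟩

/-- the endomorphism field by rational coefficients -/
theorem endF_iff (L : PeriodPair) (c : ℂ) : c ∈ EndF L ↔ ∃ a b a' b' : ℚ,
    c * L.ω₁ = (a : ℂ) * L.ω₁ + (b : ℂ) * L.ω₂ ∧ c * L.ω₂ = (a' : ℂ) * L.ω₁ + (b' : ℂ) * L.ω₂ := by
  constructor
  · rintro ⟨N, hN, h⟩
    have hN' : (N : ℂ) ≠ 0 := by exact_mod_cast hN.ne'
    obtain ⟨m, n, h1⟩ := (PeriodPair.mem_lattice (L := L)).1 (h L.ω₁ (L.ω₁_mem_lattice))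
    obtain ⟨m', n', h2⟩ := (PeriodPair.mem_lattice (L := L)).1 (h L.ω₂ (L.ω₂_mem_lattice))
    refine ⟨m / N, n / N, m' / N, n' / N, ?_, ?_⟩
    · push_cast
      field_simp
      linear_combination -h1
    · push_cast
      field_simp
      linear_combination -h2
  · rintro ⟨a, b, a', b', h1, h2⟩
    have hd : ∀ q : ℚ, (q : ℂ) * q.den = q.num := fun q => by
      have := Rat.mul_den_eq_num q
      exact_mod_cast this
    refine ⟨a.den * b.den * a'.den * b'.den, ?_, ?_⟩
    · exact Nat.mul_pos (Nat.mul_pos (Nat.mul_pos a.den_pos b.den_pos) a'.den_pos) b'.den_pos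
    · intro x hx
      obtain ⟨m, n, rfl⟩ := (PeriodPair.mem_lattice (L := L)).1 hx
      rw [PeriodPair.mem_lattice]
      refine ⟨m * (a.num * b.den * a'.den * b'.den) + n * (a'.num * a.den * b.den * b'.den),
        m * (b.num * a.den * a'.den * b'.den) + n * (b'.num * a.den * b.den * a'.den), ?_⟩
      push_cast
      rw [← hd a, ← hd b, ← hd a', ← hd b']
      linear_combination -((a.den : ℂ) * b.den * a'.den * b'.den) * (m * h1 + n * h2)

end Pool.Agent.QR
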