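import Pool.Agent.QR.Types

/-!
# Three exceptional planes have no common line
-/

namespace Pool.Agent.QR

open Polynomial

variable {K L : Type*} [Field K] [Field L] [Algebra K L]

theorem ev0 {x : L} (hx : Transcendental K x) {P : K[X]} (h : aeval x P = 0) (c : K) :
    P.eval c = 0 := by rw [pol0 hx h]; simp

theorem Ind4.swap {x y z : L} (h : Ind4 K x y z) : Ind4 K x z y := by
  intro a b c d h1
  have := h a b d c (by linear_combination h1)
  exact ⟨this.1, this.2.1, this.2.2.2, this.2.2.1⟩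

theorem amap_ne {a : K} (ha : a ≠ 0) : algebraMap K L a ≠ 0 := by
  rw [Ne, FaithfulSMul.algebraMap_eq_zero_iff]; exact ha

/-- If all coefficients vanish we have a contradiction. -/
theorem a_PP {x Y₁ Y₂ : L} (hi : Ind4 K x Y₁ Y₂) (h₁ : TP K x Y₁) (h₂ : TP K x Y₂) : False := by
  obtain ⟨α, hα, h₁⟩ := h₁
  obtain ⟨β, hβ, h₂⟩ := h₂
  have := hi 0 0 β (-α) (by simp only [map_zero, map_neg]; rw [h₁, h₂]; ring)
  exact hβ this.2.2.1

theorem a_PH [IsAlgClosed K] {x Y₁ Y₂ : L} (hi : Ind4 K x Y₁ Y₂) (h₁ : TP K x Y₁)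
    (h₂ : TH K x Y₂) (h : Rel2 K x (Y₁ + Y₂)) : False := by
  have hx := hi.transc
  obtain ⟨α, hα, h₁⟩ := h₁
  obtain ⟨β, c, hβ, h₂⟩ := h₂
  obtain ⟨A, B, C', D, E, F, h0, h⟩ := h
  have hA : A = 0 := by
    have h3 := ev0 hx (P := C A * (C α * X ^ 2 * (X - C c) + C β) ^ 2 +
      (C B * X * (C α * X ^ 2 * (X - C c) + C β) + C D * (C α * X ^ 2 * (X - C c) + C β)) *
        (X - C c) + (C C' * X ^ 2 + C E * X + C F) * (X - C c) ^ 2) (by
      simp only [map_add, map_mul, map_pow, map_sub, aeval_C, aeval_X]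
      subst h₁
      rw [← h₂]
      linear_combination (x - algebraMap K L c) ^ 2 * h) c
    simp only [eval_add, eval_mul, eval_pow, eval_sub, eval_C, eval_X, sub_self, mul_zero,
      zero_add, add_zero, ne_eq, OfNat.ofNat_ne_zero, not_false_eq_true, zero_pow] at h3
    exact (mul_eq_zero.1 h3).resolve_right (pow_ne_zero 2 hβ)
  subst hA
  have h4 := coef6 hx (D * β - F * c) (B * β - E * c + F) (-(C' * c) - D * α * c + E)
    (-(B * α * c) + C' + D * α) (B * α) 0 0 (by
      simp only [map_add, map_mul, map_sub, map_neg, map_zero]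
      simp only [map_zero] at h
      subst h₁
      rw [← h₂]
      linear_combination (x - algebraMap K L c) * h)
  obtain ⟨k0, k1, k2, k3, k4, -, -⟩ := h4
  have hB : B = 0 := (mul_eq_zero.1 k4).resolve_right hα
  subst hB
  have hE : E = 0 := by linear_combination k2 + c * k3
  have hF : F = 0 := by linear_combination k1 + c * hE
  have hD : D = 0 := by
    have : D * β = 0 := by linear_combination k0 + c * hF
    exact (mul_eq_zero.1 this).resolve_right hβ
  have hC : C' = 0 := by linear_combination k3 - α * hD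
  exact h0 ⟨rfl, rfl, hC, hD, hE, hF⟩

theorem a_PS [IsAlgClosed K] {x Y₁ Y₂ : L} (hi : Ind4 K x Y₁ Y₂) (h₁ : TP K x Y₁)
    (h₂ : TS K x Y₂) (h : Rel2 K x (Y₁ + Y₂)) (h20 : (2 : K) ≠ 0) : False := by
  have hx := hi.transc
  obtain ⟨α, hα, h₁⟩ := h₁
  obtain ⟨p, q, r, h₂⟩ := h₂
  obtain ⟨A, B, C', D, E, F, h0, h⟩ := h
  obtain ⟨hP, hQ⟩ := rt1 hx h₂ (P := C A * (C (α ^ 2) * X ^ 4 + qd p q r) + C (B * α) * X ^ 3 +
      C C' * X ^ 2 + C (D * α) * X ^ 2 + C E * X + C F)
    (Q := C (2 * A * α) * X ^ 2 + C B * X + C D) (by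
      simp only [map_add, map_mul, map_pow, map_sub, aeval_C, aeval_X, qd_aeval, map_ofNat]
      rw [← h₂.2]
      subst h₁
      linear_combination h)
  have h4 := coef6 hx D B (2 * A * α) 0 0 0 0 (by
    have := congrArg (aeval x) hQ
    simp only [map_add, map_mul, map_pow, aeval_C, aeval_X, map_zero, map_ofNat] at this
    simp only [map_zero, map_mul, map_ofNat]
    linear_combination this)
  obtain ⟨hD, hB, hA, -⟩ := h4
  have hA : A = 0 := by
    rcases mul_eq_zero.1 hA with h5 | h5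
    · exact (mul_eq_zero.1 h5).resolve_left h20
    · exact absurd h5 hα
  subst hA hB hD
  have h4 := coef6 hx F E C' 0 0 0 0 (by
    have := congrArg (aeval x) hP
    simp only [map_add, map_mul, map_pow, aeval_C, aeval_X, map_zero] at this
    simp only [map_zero]
    linear_combination this)
  exact h0 ⟨rfl, rfl, h4.2.2.1, rfl, h4.2.1, h4.1⟩

theorem a_HH [IsAlgClosed K] {x Y₁ Y₂ : L} (hi : Ind4 K x Y₁ Y₂) (h₁ : TH K x Y₁)
    (h₂ : TH K x Y₂) (h : Rel2 K x (Y₁ + Y₂)) : False := by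
  have hx := hi.transc
  obtain ⟨α, c, hα, h₁⟩ := h₁
  obtain ⟨β, c', hβ, h₂⟩ := h₂
  obtain ⟨A, B, C', D, E, F, h0, h⟩ := h
  have hc0 := ne_of_transc hx c
  have hc0' := ne_of_transc hx c'
  have hcc : c - c' ≠ 0 := by
    intro hcc
    have hcc : c = c' := sub_eq_zero.1 hcc
    subst hcc
    have h3 : algebraMap K L β * Y₁ - algebraMap K L α * Y₂ = 0 := by
      apply (mul_eq_zero.1 (?_ : (algebraMap K L β * Y₁ - algebraMap K L α * Y₂) *
        (x - algebraMap K L c) = 0)).resolve_right hc0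
      linear_combination algebraMap K L β * h₁ - algebraMap K L α * h₂
    have := hi 0 0 β (-α) (by simp only [map_zero, map_neg]; linear_combination h3)
    exact hβ this.2.2.1
  have hcc' : c' - c ≠ 0 := by
    intro h; apply hcc; linear_combination -h
  set N : K[X] := C α * (X - C c') + C β * (X - C c) with hN
  set M : K[X] := (X - C c) * (X - C c') with hM
  have eN : (x - algebraMap K L c) * (x - algebraMap K L c') * (Y₁ + Y₂) = aeval x N := by
    simp only [hN, map_add, map_mul, map_sub, aeval_C, aeval_X]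
    rw [← h₁, ← h₂]; ring
  have eM : aeval x M = (x - algebraMap K L c) * (x - algebraMap K L c') := by
    simp only [hM, map_mul, map_sub, aeval_C, aeval_X]
  have hA : A = 0 := by
    have h3 := ev0 hx (P := C A * N ^ 2 + (C B * X * N + C D * N) * M +
      (C C' * X ^ 2 + C E * X + C F) * M ^ 2) (by
      simp only [map_add, map_mul, map_pow, aeval_C, aeval_X]
      rw [eM, ← eN]
      linear_combination ((x - algebraMap K L c) * (x - algebraMap K L c')) ^ 2 * h) c
    simp only [hM, hN, eval_add, eval_mul, eval_pow, eval_sub, eval_C, eval_X, sub_self, mul_zero,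
      zero_mul, zero_add, add_zero, ne_eq, OfNat.ofNat_ne_zero, not_false_eq_true, zero_pow] at h3
    exact (mul_eq_zero.1 h3).resolve_right (pow_ne_zero 2 (mul_ne_zero hα hcc))
  subst hA
  have h5 : aeval x (C B * X * N + C D * N + (C C' * X ^ 2 + C E * X + C F) * M) = 0 := by
    simp only [map_add, map_mul, map_pow, aeval_C, aeval_X]
    rw [eM, ← eN]
    simp only [map_zero] at h
    linear_combination ((x - algebraMap K L c) * (x - algebraMap K L c')) * h
  have h6 := ev0 hx h5 c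
  have h7 := ev0 hx h5 c'
  simp only [hM, hN, eval_add, eval_mul, eval_pow, eval_sub, eval_C, eval_X, sub_self, mul_zero,
      zero_mul, zero_add, add_zero] at h6 h7
  have h8 : B * c + D = 0 := by
    have : (B * c + D) * (α * (c - c')) = 0 := by linear_combination h6
    exact (mul_eq_zero.1 this).resolve_right (mul_ne_zero hα hcc)
  have h9 : B * c' + D = 0 := by
    have : (B * c' + D) * (β * (c' - c)) = 0 := by linear_combination h7
    exact (mul_eq_zero.1 this).resolve_right (mul_ne_zero hβ hcc')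
  have hB : B = 0 := by
    have : B * (c - c') = 0 := by linear_combination h8 - h9
    exact (mul_eq_zero.1 this).resolve_right hcc
  have hD : D = 0 := by linear_combination h8 - c * hB
  subst hB hD
  have h4 := coef6 hx F E C' 0 0 0 0 (by
    simp only [map_zero] at h ⊢
    linear_combination h)
  exact h0 ⟨rfl, rfl, h4.2.2.1, rfl, h4.2.1, h4.1⟩

theorem a_HS [IsAlgClosed K] {x Y₁ Y₂ : L} (hi : Ind4 K x Y₁ Y₂) (h₁ : TH K x Y₁)
    (h₂ : TS K x Y₂) (h : Rel2 K x (Y₁ + Y₂)) (h20 : (2 : K) ≠ 0) : False := by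
  have hx := hi.transc
  obtain ⟨α, c, hα, h₁⟩ := h₁
  obtain ⟨p, q, r, h₂⟩ := h₂
  obtain ⟨A, B, C', D, E, F, h0, h⟩ := h
  have hc0 := ne_of_transc hx c
  obtain ⟨-, hQ⟩ := rt1 hx h₂
    (P := C A * (C α ^ 2 + qd p q r * (X - C c) ^ 2) + (C B * X + C D) * C α * (X - C c) +
      (C C' * X ^ 2 + C E * X + C F) * (X - C c) ^ 2)
    (Q := (C (2 * A * α) + (C B * X + C D) * (X - C c)) * (X - C c)) (by
      simp only [map_add, map_mul, map_pow, map_sub, aeval_C, aeval_X, qd_aeval, map_ofNat]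
      rw [← h₂.2, ← h₁]
      linear_combination (x - algebraMap K L c) ^ 2 * h)
  have hQ' : C (2 * A * α) + (C B * X + C D) * (X - C c) = 0 :=
    (mul_eq_zero.1 hQ).resolve_right (X_sub_C_ne_zero c)
  have h4 := coef6 hx (2 * A * α - D * c) (-(B * c) + D) B 0 0 0 0 (by
    have := congrArg (aeval x) hQ'
    simp only [map_add, map_mul, map_sub, aeval_C, aeval_X, map_zero, map_ofNat] at this
    simp only [map_zero, map_mul, map_sub, map_add, map_neg, map_ofNat]
    linear_combination this)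
  obtain ⟨k0, k1, hB, -⟩ := h4
  have hD : D = 0 := by linear_combination k1 + c * hB
  have hA : A = 0 := by
    have : 2 * A * α = 0 := by linear_combination k0 + c * hD
    rcases mul_eq_zero.1 this with h5 | h5
    · exact (mul_eq_zero.1 h5).resolve_left h20
    · exact absurd h5 hα
  subst hA hB hD
  have h4 := coef6 hx F E C' 0 0 0 0 (by
    simp only [map_zero] at h ⊢
    linear_combination h)
  exact h0 ⟨rfl, rfl, h4.2.2.1, rfl, h4.2.1, h4.1⟩

theorem a_SS [IsAlgClosed K] {x Y₁ Y₂ : L} (hi : Ind4 K x Y₁ Y₂) (h₁ : TS K x Y₁)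
    (h₂ : TS K x Y₂) (h : Rel2 K x (Y₁ + Y₂)) (h20 : (2 : K) ≠ 0) : False := by
  have hx := hi.transc
  obtain ⟨p, q, r, h₁⟩ := h₁
  obtain ⟨p', q', r', h₂⟩ := h₂
  obtain ⟨A, B, C', D, E, F, h0, h⟩ := h
  have hn : ∀ c : K, Y₂ ≠ algebraMap K L c * Y₁ := by
    intro c hc
    have := hi 0 0 (-c) 1 (by simp only [map_zero, map_neg, map_one]; rw [hc]; ring)
    exact one_ne_zero this.2.2.2
  obtain ⟨-, hQ, -, hS⟩ := rt2 hx h20 h₁ h₂ hn
    (P := C A * (qd p q r + qd p' q' r') + C C' * X ^ 2 + C E * X + C F)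
    (Q := C B * X + C D) (R := C B * X + C D) (S := C (2 * A)) (by
      simp only [map_add, map_mul, map_pow, aeval_C, aeval_X, qd_aeval, map_ofNat]
      rw [← h₁.2, ← h₂.2]
      linear_combination h)
  have hA : A = 0 := (mul_eq_zero.1 (C_eq_zero.1 hS)).resolve_left h20
  have h4 := coef6 hx D B 0 0 0 0 0 (by
    have := congrArg (aeval x) hQ
    simp only [map_add, map_mul, aeval_C, aeval_X, map_zero] at this
    simp only [map_zero]
    linear_combination this)
  obtain ⟨hD, hB, -⟩ := h4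
  subst hA hB hD
  have h4 := coef6 hx F E C' 0 0 0 0 (by
    simp only [map_zero] at h ⊢
    linear_combination h)
  exact h0 ⟨rfl, rfl, h4.2.2.1, rfl, h4.2.1, h4.1⟩

/-- The sum of two functions of the three types satisfies no quadratic relation with `x`. -/
theorem a_all [IsAlgClosed K] [CharZero K] {x Y₁ Y₂ : L} (hi : Ind4 K x Y₁ Y₂) (h₁ : Ty K x Y₁)
    (h₂ : Ty K x Y₂) (h : Rel2 K x (Y₁ + Y₂)) : False := by
  have h20 : (2 : K) ≠ 0 := two_ne_zero
  have h' : Rel2 K x (Y₂ + Y₁) := by rwa [add_comm]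
  rcases h₁ with h₁ | h₁ | h₁ <;> rcases h₂ with h₂ | h₂ | h₂
  · exact a_PP hi h₁ h₂
  · exact a_PH hi h₁ h₂ h
  · exact a_PS hi h₁ h₂ h h20
  · exact a_PH hi.swap h₂ h₁ h'
  · exact a_HH hi h₁ h₂ h
  · exact a_HS hi h₁ h₂ h h20
  · exact a_PS hi.swap h₂ h₁ h' h20
  · exact a_HS hi.swap h₂ h₁ h' h20
  · exact a_SS hi h₁ h₂ h h20

/-- Independence of `1, x, y`. -/
theorem Ind4.ind3 {x y z : L} (h : Ind4 K x y z) (a b c : K)
    (h1 : algebraMap K L a + algebraMap K L b * x + algebraMap K L c * y = 0) :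
    a = 0 ∧ b = 0 ∧ c = 0 := by
  have := h a b c 0 (by simp only [map_zero]; linear_combination h1)
  exact ⟨this.1, this.2.1, this.2.2.1⟩

/-- **Three exceptional planes have no common line.** -/
theorem common_line [IsAlgClosed K] [CharZero K] {x y z : L} (hi : Ind4 K x y z)
    (h₁ : Rel2 K x y) (h₂ : Rel2 K x z) {a b : K} (ha : a ≠ 0) (hb : b ≠ 0)
    (h : Rel2 K x (algebraMap K L a * y + algebraMap K L b * z)) : False := by
  obtain ⟨b₁, e₁, t₁⟩ := normal_form hi.ind3 h₁
  obtain ⟨b₂, e₂, t₂⟩ := normal_form hi.swap.ind3 h₂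
  refine a_all (x := x) (Y₁ := algebraMap K L a * (y + algebraMap K L b₁ * x + algebraMap K L e₁))
    (Y₂ := algebraMap K L b * (z + algebraMap K L b₂ * x + algebraMap K L e₂)) ?_
    (t₁.smul ha) (t₂.smul hb) ?_
  · intro c0 c1 c2 c3 h3
    have h4 := hi (c0 + c2 * a * e₁ + c3 * b * e₂) (c1 + c2 * a * b₁ + c3 * b * b₂) (c2 * a)
      (c3 * b) (by
        simp only [map_add, map_mul]
        linear_combination h3)
    obtain ⟨k0, k1, k2, k3⟩ := h4
    have hc2 : c2 = 0 := (mul_eq_zero.1 k2).resolve_right ha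
    have hc3 : c3 = 0 := (mul_eq_zero.1 k3).resolve_right hb
    subst hc2 hc3
    exact ⟨by linear_combination k0, by linear_combination k1, rfl, rfl⟩
  · have h5 := h.shift (a * b₁ + b * b₂) (a * e₁ + b * e₂)
    convert h5 using 1
    simp only [map_add, map_mul]
    ring

end Pool.Agent.QR
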