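import Pool.Agent.QR.CaseA

/-!
# Four exceptional planes in general position do not exist
-/

namespace Pool.Agent.QR

open Polynomial

variable {K L : Type*} [Field K] [Field L] [Algebra K L]

/-- `Y` of parabola type, `Z` of hyperbola type: impossible. -/
theorem b_PH [IsAlgClosed K] {x Y Z : L} (hx : Transcendental K x) (h₁ : TP K x Y)
    (h₂ : TH K x Z) {b e b' e' : K}
    (h : Rel2 K (Y + algebraMap K L b * x + algebraMap K L e)
      (Z + algebraMap K L b' * x + algebraMap K L e')) : False := by
  obtain ⟨α, hα, h₁⟩ := h₁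
  obtain ⟨β, c, hβ, h₂⟩ := h₂
  obtain ⟨A, B, C', D, E, F, h0, h⟩ := h
  have hc0 := ne_of_transc hx c
  subst h₁
  set y : K[X] := C α * X ^ 2 + C b * X + C e with hy
  set M : K[X] := C β + (C b' * X + C e') * (X - C c) with hM
  have ey : aeval x y = algebraMap K L α * x ^ 2 + algebraMap K L b * x + algebraMap K L e := by
    simp only [hy, map_add, map_mul, map_pow, aeval_C, aeval_X]
  have eM : aeval x M = (Z + algebraMap K L b' * x + algebraMap K L e') *
      (x - algebraMap K L c) := by
    simp only [hM, map_add, map_mul, map_sub, aeval_C, aeval_X]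
    rw [← h₂]; ring
  rw [← ey] at h
  have hA : A = 0 := by
    have h3 := ev0 hx (P := C A * M ^ 2 + (C B * y + C D) * M * (X - C c) +
      (C C' * y ^ 2 + C E * y + C F) * (X - C c) ^ 2) (by
      simp only [map_add, map_mul, map_pow, map_sub, aeval_C, aeval_X]
      rw [eM]
      linear_combination (x - algebraMap K L c) ^ 2 * h) c
    simp only [hM, eval_add, eval_mul, eval_pow, eval_sub, eval_C, eval_X, sub_self, mul_zero,
      add_zero, ne_eq, OfNat.ofNat_ne_zero, not_false_eq_true, zero_pow] at h3
    exact (mul_eq_zero.1 h3).resolve_right (pow_ne_zero 2 hβ)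
  subst hA
  have h5 : aeval x (C B * y * M + C C' * y ^ 2 * (X - C c) + C D * M + C E * y * (X - C c) +
      C F * (X - C c)) = 0 := by
    simp only [map_add, map_mul, map_pow, map_sub, aeval_C, aeval_X]
    rw [eM]
    simp only [map_zero] at h
    linear_combination (x - algebraMap K L c) * h
  simp only [map_add, map_mul, map_pow, map_sub, aeval_C, aeval_X, hy, hM] at h5
  have hC : C' = 0 := by
    have h6 := coef6 hx
      (B * e * (β - e' * c) - C' * e ^ 2 * c + D * (β - e' * c) - E * e * c - F * c)
      (B * (b * (β - e' * c) + e * (e' - b' * c)) + C' * (e ^ 2 - 2 * b * e * c) +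
        D * (e' - b' * c) + E * (e - b * c) + F)
      (B * (α * (β - e' * c) + b * (e' - b' * c) + e * b') +
        C' * (2 * b * e - (b ^ 2 + 2 * α * e) * c) + D * b' + E * (b - α * c))
      (B * (α * (e' - b' * c) + b * b') + C' * (b ^ 2 + 2 * α * e - 2 * α * b * c) + E * α)
      (B * (α * b') + C' * (2 * α * b - α ^ 2 * c)) (C' * α ^ 2) 0 (by
        simp only [map_add, map_mul, map_sub, map_pow, map_ofNat, map_zero]
        linear_combination h5)
    exact (mul_eq_zero.1 h6.2.2.2.2.2.1).resolve_right (pow_ne_zero 2 hα)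
  subst hC
  have h6 := coef6 hx
      (B * e * (β - e' * c) + D * (β - e' * c) - E * e * c - F * c)
      (B * (b * (β - e' * c) + e * (e' - b' * c)) +
        D * (e' - b' * c) + E * (e - b * c) + F)
      (B * (α * (β - e' * c) + b * (e' - b' * c) + e * b') + D * b' + E * (b - α * c))
      (B * (α * (e' - b' * c) + b * b') + E * α)
      (B * (α * b')) 0 0 (by
        simp only [map_add, map_mul, map_sub, map_zero]
        simp only [map_zero] at h5
        linear_combination h5)
  obtain ⟨k0, k1, k2, k3, k4, -, -⟩ := h6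
  by_cases hB : B = 0
  · subst hB
    have hE : E = 0 := by
      have : E * α = 0 := by linear_combination k3
      exact (mul_eq_zero.1 this).resolve_right hα
    subst hE
    have hD : D = 0 := by
      have : D * β = 0 := by linear_combination k0 + c * k1 + c ^ 2 * k2
      exact (mul_eq_zero.1 this).resolve_right hβ
    subst hD
    exact h0 ⟨rfl, rfl, rfl, rfl, rfl, by linear_combination k1⟩
  · have hb' : b' = 0 := by
      rcases mul_eq_zero.1 k4 with h | h
      · exact absurd h hB
      · exact (mul_eq_zero.1 h).resolve_left hα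
    subst hb'
    have hE : E = -(B * e') := by
      have : α * (E + B * e') = 0 := by linear_combination k3
      have := (mul_eq_zero.1 this).resolve_left hα
      linear_combination this
    subst hE
    have : B * (α * β) = 0 := by linear_combination k2
    rcases mul_eq_zero.1 this with h | h
    · exact hB h
    · exact mul_ne_zero hα hβ h

/-- `Y` of hyperbola type, `Z` of root type: impossible. -/
theorem b_HS [IsAlgClosed K] {x Y Z : L} (hx : Transcendental K x) (h₁ : TH K x Y)
    (h₂ : TS K x Z) (h20 : (2 : K) ≠ 0) {b e b' e' : K}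
    (h : Rel2 K (Y + algebraMap K L b * x + algebraMap K L e)
      (Z + algebraMap K L b' * x + algebraMap K L e')) : False := by
  obtain ⟨α, c, hα, h₁⟩ := h₁
  obtain ⟨p, q, r, h₂⟩ := h₂
  obtain ⟨A, B, C', D, E, F, h0, h⟩ := h
  have hc0 := ne_of_transc hx c
  set N : K[X] := C α + (C b * X + C e) * (X - C c) with hN
  set m : K[X] := C b' * X + C e' with hm
  have eN : aeval x N = (Y + algebraMap K L b * x + algebraMap K L e) *
      (x - algebraMap K L c) := by
    simp only [hN, map_add, map_mul, map_sub, aeval_C, aeval_X]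
    rw [← h₁]; ring
  have em : aeval x m = algebraMap K L b' * x + algebraMap K L e' := by
    simp only [hm, map_add, map_mul, aeval_C, aeval_X]
  obtain ⟨hP, hQ⟩ := rt1 hx h₂
    (P := (C A * (qd p q r + m ^ 2) + C D * m + C F) * (X - C c) ^ 2 +
      (C B * m + C E) * N * (X - C c) + C C' * N ^ 2)
    (Q := (C (2 * A) * m * (X - C c) + C B * N + C D * (X - C c)) * (X - C c)) (by
      simp only [map_add, map_mul, map_pow, map_sub, aeval_C, aeval_X, qd_aeval, map_ofNat]
      rw [← h₂.2, eN, em]
      linear_combination (x - algebraMap K L c) ^ 2 * h)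
  have hQ' := (mul_eq_zero.1 hQ).resolve_right (X_sub_C_ne_zero c)
  have hB : B = 0 := by
    have h3 := congrArg (eval c) hQ'
    simp only [hN, hm, eval_add, eval_mul, eval_sub, eval_C, eval_X, sub_self, mul_zero,
      add_zero, zero_add, eval_zero] at h3
    exact (mul_eq_zero.1 h3).resolve_right hα
  subst hB
  have hQ'' : C (2 * A) * m + C D = 0 := by
    have : (C (2 * A) * m + C D) * (X - C c) = 0 := by
      rw [C_0] at hQ'
      linear_combination hQ'
    exact (mul_eq_zero.1 this).resolve_right (X_sub_C_ne_zero c)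
  have h4 := coef6 hx (2 * A * e' + D) (2 * A * b') 0 0 0 0 0 (by
    have := congrArg (aeval x) hQ''
    simp only [hm, map_add, map_mul, aeval_C, aeval_X, map_zero, map_ofNat] at this
    simp only [map_zero, map_mul, map_add, map_ofNat]
    linear_combination this)
  obtain ⟨k0, k1, -⟩ := h4
  have hC : C' = 0 := by
    have h3 := congrArg (eval c) hP
    simp only [hN, hm, eval_add, eval_mul, eval_sub, eval_C, eval_X, sub_self, mul_zero,
      add_zero, zero_add, eval_zero, eval_pow, ne_eq, OfNat.ofNat_ne_zero, not_false_eq_true,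
      zero_pow] at h3
    exact (mul_eq_zero.1 h3).resolve_right (pow_ne_zero 2 hα)
  subst hC
  have hP' : (C A * (qd p q r + m ^ 2) + C D * m + C F) * (X - C c) + C E * N = 0 := by
    have : ((C A * (qd p q r + m ^ 2) + C D * m + C F) * (X - C c) + C E * N) * (X - C c) = 0 := by
      rw [C_0] at hP
      linear_combination hP
    exact (mul_eq_zero.1 this).resolve_right (X_sub_C_ne_zero c)
  have hE : E = 0 := by
    have h3 := congrArg (eval c) hP'
    simp only [hN, eval_add, eval_mul, eval_sub, eval_C, eval_X, sub_self, mul_zero,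
      add_zero, zero_add, eval_zero] at h3
    exact (mul_eq_zero.1 h3).resolve_right hα
  subst hE
  have hP'' : C A * (qd p q r + m ^ 2) + C D * m + C F = 0 := by
    have : (C A * (qd p q r + m ^ 2) + C D * m + C F) * (X - C c) = 0 := by
      rw [C_0] at hP'
      linear_combination hP'
    exact (mul_eq_zero.1 this).resolve_right (X_sub_C_ne_zero c)
  have h4 := coef6 hx (A * (r + e' ^ 2) + D * e' + F) (A * (q + 2 * b' * e') + D * b')
    (A * (p + b' ^ 2)) 0 0 0 0 (by
    have := congrArg (aeval x) hP''
    simp only [hm, map_add, map_mul, map_pow, aeval_C, aeval_X, map_zero, qd_aeval] at this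
    simp only [map_zero, map_mul, map_add, map_pow, map_ofNat]
    linear_combination this)
  obtain ⟨j0, j1, j2, -⟩ := h4
  by_cases hA : A = 0
  · subst hA
    have hD : D = 0 := by linear_combination k0
    subst hD
    exact h0 ⟨rfl, rfl, rfl, rfl, rfl, by linear_combination j0⟩
  · have hb' : b' = 0 := by
      rcases mul_eq_zero.1 k1 with h | h
      · exact absurd h (mul_ne_zero h20 hA)
      · exact h
    subst hb'
    have hp : p = 0 := by
      have : A * p = 0 := by linear_combination j2
      exact (mul_eq_zero.1 this).resolve_left hA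
    have hq : q = 0 := by
      have : A * q = 0 := by linear_combination j1
      exact (mul_eq_zero.1 this).resolve_left hA
    apply h₂.1
    rw [hp, hq]; ring

/-- `Y` of parabola type, `Z` of root type: `b' = 0`. -/
theorem b_PS [IsAlgClosed K] {x Y Z : L} (hx : Transcendental K x) (h₁ : TP K x Y)
    (h₂ : TS K x Z) (h20 : (2 : K) ≠ 0) {b e b' e' : K}
    (h : Rel2 K (Y + algebraMap K L b * x + algebraMap K L e)
      (Z + algebraMap K L b' * x + algebraMap K L e')) : b' = 0 := by
  by_contra hb'
  obtain ⟨α, hα, h₁⟩ := h₁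
  obtain ⟨p, q, r, h₂⟩ := h₂
  obtain ⟨A, B, C', D, E, F, h0, h⟩ := h
  subst h₁
  set y : K[X] := C α * X ^ 2 + C b * X + C e with hy
  set m : K[X] := C b' * X + C e' with hm
  have ey : aeval x y = algebraMap K L α * x ^ 2 + algebraMap K L b * x + algebraMap K L e := by
    simp only [hy, map_add, map_mul, map_pow, aeval_C, aeval_X]
  have em : aeval x m = algebraMap K L b' * x + algebraMap K L e' := by
    simp only [hm, map_add, map_mul, aeval_C, aeval_X]
  rw [← ey] at h
  obtain ⟨hP, hQ⟩ := rt1 hx h₂
    (P := C A * (qd p q r + m ^ 2) + C B * y * m + C C' * y ^ 2 + C D * m + C E * y + C F)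
    (Q := C (2 * A) * m + C B * y + C D) (by
      simp only [map_add, map_mul, map_pow, aeval_C, aeval_X, qd_aeval, map_ofNat]
      rw [← h₂.2, em]
      linear_combination h)
  have h4 := coef6 hx (2 * A * e' + B * e + D) (2 * A * b' + B * b) (B * α) 0 0 0 0 (by
    have := congrArg (aeval x) hQ
    simp only [hm, hy, map_add, map_mul, map_pow, aeval_C, aeval_X, map_zero, map_ofNat] at this
    simp only [map_zero, map_mul, map_add, map_ofNat]
    linear_combination this)
  obtain ⟨k0, k1, k2, -⟩ := h4
  have hB : B = 0 := (mul_eq_zero.1 k2).resolve_right hα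
  subst hB
  have hA : A = 0 := by
    have : 2 * A * b' = 0 := by linear_combination k1
    rcases mul_eq_zero.1 this with h | h
    · exact (mul_eq_zero.1 h).resolve_left h20
    · exact absurd h hb'
  subst hA
  have hD : D = 0 := by linear_combination k0
  subst hD
  have h4 := coef6 hx (C' * e ^ 2 + E * e + F) (C' * (2 * b * e) + E * b)
    (C' * (b ^ 2 + 2 * α * e) + E * α) (C' * (2 * α * b)) (C' * α ^ 2) 0 0 (by
    have := congrArg (aeval x) hP
    simp only [hy, map_add, map_mul, map_pow, aeval_C, aeval_X, map_zero] at this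
    simp only [map_zero, map_mul, map_add, map_ofNat, map_pow]
    linear_combination this)
  obtain ⟨j0, -, j2, -, j4, -⟩ := h4
  have hC : C' = 0 := (mul_eq_zero.1 j4).resolve_right (pow_ne_zero 2 hα)
  subst hC
  have hE : E = 0 := by
    have : E * α = 0 := by linear_combination j2
    exact (mul_eq_zero.1 this).resolve_right hα
  subst hE
  exact h0 ⟨rfl, rfl, rfl, rfl, rfl, by linear_combination j0⟩

/-- Both of hyperbola type: `b = 0`. -/
theorem b_HH [IsAlgClosed K] {x Y Z : L} (hi : Ind4 K x Y Z) (h₁ : TH K x Y)
    (h₂ : TH K x Z) {b e b' e' : K}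
    (h : Rel2 K (Y + algebraMap K L b * x + algebraMap K L e)
      (Z + algebraMap K L b' * x + algebraMap K L e')) : b = 0 := by
  have hx := hi.transc
  by_contra hb
  obtain ⟨α, c, hα, h₁⟩ := h₁
  obtain ⟨β, c', hβ, h₂⟩ := h₂
  obtain ⟨A, B, C', D, E, F, h0, h⟩ := h
  have hc0 := ne_of_transc hx c
  have hc0' := ne_of_transc hx c'
  have hcc : c - c' ≠ 0 := by
    intro hcc
    have hcc : c = c' := sub_eq_zero.1 hcc
    subst hcc
    have h3 : algebraMap K L β * Y - algebraMap K L α * Z = 0 := by
      apply (mul_eq_zero.1 (?_ : (algebraMap K L β * Y - algebraMap K L α * Z) *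
        (x - algebraMap K L c) = 0)).resolve_right hc0
      linear_combination algebraMap K L β * h₁ - algebraMap K L α * h₂
    have := hi 0 0 β (-α) (by simp only [map_zero, map_neg]; linear_combination h3)
    exact hβ this.2.2.1
  have hcc' : c' - c ≠ 0 := by
    intro h; apply hcc; linear_combination -h
  set N : K[X] := C α + (C b * X + C e) * (X - C c) with hN
  set M : K[X] := C β + (C b' * X + C e') * (X - C c') with hM
  have eN : aeval x N = (Y + algebraMap K L b * x + algebraMap K L e) *
      (x - algebraMap K L c) := by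
    simp only [hN, map_add, map_mul, map_sub, aeval_C, aeval_X]
    rw [← h₁]; ring
  have eM : aeval x M = (Z + algebraMap K L b' * x + algebraMap K L e') *
      (x - algebraMap K L c') := by
    simp only [hM, map_add, map_mul, map_sub, aeval_C, aeval_X]
    rw [← h₂]; ring
  have hfull : aeval x (C A * M ^ 2 * (X - C c) ^ 2 + C B * N * M * (X - C c) * (X - C c') +
      C C' * N ^ 2 * (X - C c') ^ 2 + C D * M * (X - C c') * (X - C c) ^ 2 +
      C E * N * (X - C c) * (X - C c') ^ 2 + C F * (X - C c) ^ 2 * (X - C c') ^ 2) = 0 := by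
    simp only [map_add, map_mul, map_pow, map_sub, aeval_C, aeval_X]
    rw [eM, eN]
    linear_combination ((x - algebraMap K L c) * (x - algebraMap K L c')) ^ 2 * h
  have hC : C' = 0 := by
    have h3 := ev0 hx hfull c
    simp only [hN, hM, eval_add, eval_mul, eval_sub, eval_C, eval_X, sub_self, mul_zero,
      zero_mul, add_zero, zero_add, eval_pow, ne_eq, OfNat.ofNat_ne_zero, not_false_eq_true,
      zero_pow] at h3
    rcases mul_eq_zero.1 h3 with h | h
    · exact (mul_eq_zero.1 h).resolve_right (pow_ne_zero 2 hα)
    · exact absurd h (pow_ne_zero 2 hcc)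
  have hA : A = 0 := by
    have h3 := ev0 hx hfull c'
    simp only [hN, hM, eval_add, eval_mul, eval_sub, eval_C, eval_X, sub_self, mul_zero,
      zero_mul, add_zero, zero_add, eval_pow, ne_eq, OfNat.ofNat_ne_zero, not_false_eq_true,
      zero_pow] at h3
    rcases mul_eq_zero.1 h3 with h | h
    · exact (mul_eq_zero.1 h).resolve_right (pow_ne_zero 2 hβ)
    · exact absurd h (pow_ne_zero 2 hcc')
  subst hA hC
  have h5 : aeval x (C B * N * M + C D * M * (X - C c) + C E * N * (X - C c') +
      C F * (X - C c) * (X - C c')) = 0 := by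
    simp only [map_add, map_mul, map_sub, aeval_C, aeval_X]
    rw [eM, eN]
    simp only [map_zero] at h
    linear_combination ((x - algebraMap K L c) * (x - algebraMap K L c')) * h
  have k1 := ev0 hx h5 c
  have k2 := ev0 hx h5 c'
  simp only [hN, hM, eval_add, eval_mul, eval_sub, eval_C, eval_X, sub_self, mul_zero,
      zero_mul, add_zero, zero_add] at k1 k2
  simp only [map_add, map_mul, map_sub, aeval_C, aeval_X, hN, hM] at h5
  have h6 := coef6 hx
    (B * (α - e * c) * (β - e' * c') - D * (β - e' * c') * c - E * (α - e * c) * c' + F * c * c')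
    (B * ((α - e * c) * (e' - b' * c') + (e - b * c) * (β - e' * c')) +
      D * ((β - e' * c') - (e' - b' * c') * c) + E * ((α - e * c) - (e - b * c) * c') -
      F * (c + c'))
    (B * ((α - e * c) * b' + (e - b * c) * (e' - b' * c') + b * (β - e' * c')) +
      D * ((e' - b' * c') - b' * c) + E * ((e - b * c) - b * c') + F)
    (B * ((e - b * c) * b' + b * (e' - b' * c')) + D * b' + E * b)
    (B * b * b') 0 0 (by
      simp only [map_add, map_mul, map_sub, map_zero]
      linear_combination h5)
  obtain ⟨-, -, j2, j3, j4, -, -⟩ := h6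
  by_cases hB : B = 0
  · subst hB
    have hE : E = 0 := by
      have : E * (α * (c - c')) = 0 := by linear_combination k1
      exact (mul_eq_zero.1 this).resolve_right (mul_ne_zero hα hcc)
    have hD : D = 0 := by
      have : D * (β * (c' - c)) = 0 := by linear_combination k2
      exact (mul_eq_zero.1 this).resolve_right (mul_ne_zero hβ hcc')
    subst hE hD
    exact h0 ⟨rfl, rfl, rfl, rfl, rfl, by linear_combination j2⟩
  · have hb' : b' = 0 := (mul_eq_zero.1 j4).resolve_left (mul_ne_zero hB hb)
    subst hb'
    have hE : E = -(B * e') := by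
      have : b * (E + B * e') = 0 := by linear_combination j3
      have := (mul_eq_zero.1 this).resolve_left hb
      linear_combination this
    subst hE
    have : α * (B * β) = 0 := by linear_combination k1
    rcases mul_eq_zero.1 this with h | h
    · exact hα h
    · exact mul_ne_zero hB hβ h

/-- Both of root type: `b = 0`. -/
theorem b_SS [IsAlgClosed K] {x Y Z : L} (hi : Ind4 K x Y Z) (h₁ : TS K x Y)
    (h₂ : TS K x Z) (h20 : (2 : K) ≠ 0) {b e b' e' : K}
    (h : Rel2 K (Y + algebraMap K L b * x + algebraMap K L e)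
      (Z + algebraMap K L b' * x + algebraMap K L e')) : b = 0 := by
  have hx := hi.transc
  by_contra hb
  obtain ⟨p₁, q₁, r₁, h₁⟩ := h₁
  obtain ⟨p, q, r, h₂⟩ := h₂
  obtain ⟨A, B, C', D, E, F, h0, h⟩ := h
  have hn : ∀ c : K, Z ≠ algebraMap K L c * Y := by
    intro c hc
    have := hi 0 0 (-c) 1 (by simp only [map_zero, map_neg, map_one]; rw [hc]; ring)
    exact one_ne_zero this.2.2.2
  set m : K[X] := C b * X + C e with hm
  set m' : K[X] := C b' * X + C e' with hm'
  have em : aeval x m = algebraMap K L b * x + algebraMap K L e := by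
    simp only [hm, map_add, map_mul, aeval_C, aeval_X]
  have em' : aeval x m' = algebraMap K L b' * x + algebraMap K L e' := by
    simp only [hm', map_add, map_mul, aeval_C, aeval_X]
  obtain ⟨hP, hQ, hR, hS⟩ := rt2 hx h20 h₁ h₂ hn
    (P := C A * (qd p q r + m' ^ 2) + C B * m * m' + C C' * (qd p₁ q₁ r₁ + m ^ 2) +
      C D * m' + C E * m + C F)
    (Q := C B * m' + C (2 * C') * m + C E) (R := C (2 * A) * m' + C B * m + C D)
    (S := C B) (by
      simp only [map_add, map_mul, map_pow, aeval_C, qd_aeval, map_ofNat]
      rw [← h₁.2, ← h₂.2, em, em']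
      linear_combination h)
  have hB : B = 0 := C_eq_zero.1 hS
  subst hB
  have h4 := coef6 hx (2 * C' * e + E) (2 * C' * b) 0 0 0 0 0 (by
    have := congrArg (aeval x) hQ
    simp only [hm, hm', map_add, map_mul, aeval_C, aeval_X, map_zero, map_ofNat] at this
    simp only [map_zero, map_mul, map_add, map_ofNat]
    linear_combination this)
  obtain ⟨k0, k1, -⟩ := h4
  have hC : C' = 0 := by
    rcases mul_eq_zero.1 k1 with h | h
    · exact (mul_eq_zero.1 h).resolve_left h20
    · exact absurd h hb
  subst hC
  have hE : E = 0 := by linear_combination k0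
  subst hE
  have h4 := coef6 hx (2 * A * e' + D) (2 * A * b') 0 0 0 0 0 (by
    have := congrArg (aeval x) hR
    simp only [hm, hm', map_add, map_mul, aeval_C, aeval_X, map_zero, map_ofNat] at this
    simp only [map_zero, map_mul, map_add, map_ofNat]
    linear_combination this)
  obtain ⟨l0, l1, -⟩ := h4
  have h4 := coef6 hx (A * (r + e' ^ 2) + D * e' + F) (A * (q + 2 * b' * e') + D * b')
    (A * (p + b' ^ 2)) 0 0 0 0 (by
    have := congrArg (aeval x) hP
    simp only [hm, hm', map_add, map_mul, map_pow, aeval_C, aeval_X, map_zero, qd_aeval] at this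
    simp only [map_zero, map_mul, map_add, map_pow, map_ofNat]
    linear_combination this)
  obtain ⟨j0, j1, j2, -⟩ := h4
  by_cases hA : A = 0
  · subst hA
    have hD : D = 0 := by linear_combination l0
    subst hD
    exact h0 ⟨rfl, rfl, rfl, rfl, rfl, by linear_combination j0⟩
  · have hb' : b' = 0 := by
      rcases mul_eq_zero.1 l1 with h | h
      · exact absurd h (mul_ne_zero h20 hA)
      · exact h
    subst hb'
    have hp : p = 0 := by
      have : A * p = 0 := by linear_combination j2
      exact (mul_eq_zero.1 this).resolve_left hA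
    have hq : q = 0 := by
      have : A * q = 0 := by linear_combination j1
      exact (mul_eq_zero.1 this).resolve_left hA
    apply h₂.1
    rw [hp, hq]; ring

/-- Summary: one of the two linear coefficients vanishes, which one depends only on `Y, Z`. -/
theorem b_all [IsAlgClosed K] [CharZero K] {x Y Z : L} (hi : Ind4 K x Y Z) (h₁ : Ty K x Y)
    (h₂ : Ty K x Z) :
    (∀ b e b' e' : K, Rel2 K (Y + algebraMap K L b * x + algebraMap K L e)
      (Z + algebraMap K L b' * x + algebraMap K L e') → b = 0) ∨
    (∀ b e b' e' : K, Rel2 K (Y + algebraMap K L b * x + algebraMap K L e)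
      (Z + algebraMap K L b' * x + algebraMap K L e') → b' = 0) := by
  have h20 : (2 : K) ≠ 0 := two_ne_zero
  have hx := hi.transc
  rcases h₁ with h₁ | h₁ | h₁ <;> rcases h₂ with h₂ | h₂ | h₂
  · exact (a_PP hi h₁ h₂).elim
  · exact Or.inl fun b e b' e' h => (b_PH hx h₁ h₂ h).elim
  · exact Or.inr fun b e b' e' h => b_PS hx h₁ h₂ h20 h
  · exact Or.inl fun b e b' e' h => (b_PH hx h₂ h₁ h.symm).elim
  · exact Or.inl fun b e b' e' h => b_HH hi h₁ h₂ h
  · exact Or.inl fun b e b' e' h => (b_HS hx h₁ h₂ h20 h).elim
  · exact Or.inl fun b e b' e' h => b_PS hx h₂ h₁ h20 h.symm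
  · exact Or.inl fun b e b' e' h => (b_HS hx h₂ h₁ h20 h.symm).elim
  · exact Or.inl fun b e b' e' h => b_SS hi h₁ h₂ h20 h

/-- **No four exceptional planes in general position.** -/
theorem four_planes [IsAlgClosed K] [CharZero K] {x y z : L} (hi : Ind4 K x y z)
    (h₁ : Rel2 K x y) (h₂ : Rel2 K x z) (h₃ : Rel2 K y z)
    (h₄ : Rel2 K (x - y) (x - z)) : False := by
  obtain ⟨b, e, t₁⟩ := normal_form hi.ind3 h₁
  obtain ⟨b', e', t₂⟩ := normal_form hi.swap.ind3 h₂
  set Y := y + algebraMap K L b * x + algebraMap K L e with hY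
  set Z := z + algebraMap K L b' * x + algebraMap K L e' with hZ
  have hyY : y = Y + algebraMap K L (-b) * x + algebraMap K L (-e) := by
    rw [hY]; simp only [map_neg]; ring
  have hzZ : z = Z + algebraMap K L (-b') * x + algebraMap K L (-e') := by
    rw [hZ]; simp only [map_neg]; ring
  have hi' : Ind4 K x Y Z := by
    intro c0 c1 c2 c3 h3
    have h4 := hi (c0 + c2 * e + c3 * e') (c1 + c2 * b + c3 * b') c2 c3 (by
        simp only [map_add, map_mul]
        rw [hY, hZ] at h3
        linear_combination h3)
    obtain ⟨k0, k1, k2, k3⟩ := h4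
    subst k2 k3
    exact ⟨by linear_combination k0, by linear_combination k1, rfl, rfl⟩
  have h₃' : Rel2 K (Y + algebraMap K L (-b) * x + algebraMap K L (-e))
      (Z + algebraMap K L (-b') * x + algebraMap K L (-e')) := by
    rw [← hyY, ← hzZ]; exact h₃
  have h₄' : Rel2 K (Y + algebraMap K L (-1 - b) * x + algebraMap K L (-e))
      (Z + algebraMap K L (-1 - b') * x + algebraMap K L (-e')) := by
    have e1 : Y + algebraMap K L (-1 - b) * x + algebraMap K L (-e) =
        algebraMap K L (-1) * (x - y) := by
      rw [hY]; simp only [map_neg, map_sub, map_one]; ring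
    have e2 : Z + algebraMap K L (-1 - b') * x + algebraMap K L (-e') =
        algebraMap K L (-1) * (x - z) := by
      rw [hZ]; simp only [map_neg, map_sub, map_one]; ring
    rw [e1, e2]
    exact ((h₄.scale (neg_ne_zero.2 one_ne_zero)).symm.scale (neg_ne_zero.2 one_ne_zero)).symm
  rcases b_all hi' t₁ t₂ with h | h
  · have k1 := h _ _ _ _ h₃'
    have k2 := h _ _ _ _ h₄'
    have : (1 : K) = 0 := by linear_combination k1 - k2
    exact one_ne_zero this
  · have k1 := h _ _ _ _ h₃'
    have k2 := h _ _ _ _ h₄'
    have : (1 : K) = 0 := by linear_combination k1 - k2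
    exact one_ne_zero this

end Pool.Agent.QR
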