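import Pool.Agent.QR.Geom
import Pool.Agent.QR.CaseA
import Pool.Agent.QR.CaseB

/-!
# Exceptional planes

A two-dimensional `ℚ`-subspace `W` of `ℂ` is exceptional if it contains two linearly independent
elements with a relation of degree at most two over `K`. No three exceptional planes of a
three-dimensional space have a common line, and there are no four exceptional planes.
-/

namespace Pool.Agent.QR

open Module Submodule

section lin

variable {K L : Type*} [Field K] [Field L] [Algebra K L]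

/-- Invariance of `Rel2` under linear substitutions. -/
theorem Rel2.lin {x y : L} (h : Rel2 K x y) {a b c d : K} (hd : a * d - b * c ≠ 0) :
    Rel2 K (algebraMap K L a * x + algebraMap K L b * y)
      (algebraMap K L c * x + algebraMap K L d * y) := by
  obtain ⟨A, B, C, D, E, F, hne, hr⟩ := h
  refine ⟨A * a ^ 2 - B * (a * b) + C * b ^ 2,
    -(2 * A * (a * c)) + B * (a * d + b * c) - 2 * C * (b * d),
    A * c ^ 2 - B * (c * d) + C * d ^ 2,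
    (a * d - b * c) * (D * a - E * b), (a * d - b * c) * (E * d - D * c),
    (a * d - b * c) ^ 2 * F, ?_, ?_⟩
  · rintro ⟨h1, h2, h3, h4, h5, h6⟩
    apply hne
    have hd2 : (a * d - b * c) ^ 2 ≠ 0 := pow_ne_zero 2 hd
    have h4' := (mul_eq_zero.1 h4).resolve_left hd
    have h5' := (mul_eq_zero.1 h5).resolve_left hd
    refine ⟨?_, ?_, ?_, ?_, ?_, (mul_eq_zero.1 h6).resolve_left hd2⟩
    · refine (mul_eq_zero.1 (?_ : (a * d - b * c) ^ 2 * A = 0)).resolve_left hd2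
      linear_combination d ^ 2 * h1 + b * d * h2 + b ^ 2 * h3
    · refine (mul_eq_zero.1 (?_ : (a * d - b * c) ^ 2 * B = 0)).resolve_left hd2
      linear_combination 2 * c * d * h1 + (a * d + b * c) * h2 + 2 * a * b * h3
    · refine (mul_eq_zero.1 (?_ : (a * d - b * c) ^ 2 * C = 0)).resolve_left hd2
      linear_combination c ^ 2 * h1 + a * c * h2 + a ^ 2 * h3
    · refine (mul_eq_zero.1 (?_ : (a * d - b * c) * D = 0)).resolve_left hd
      linear_combination d * h4' + b * h5'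
    · refine (mul_eq_zero.1 (?_ : (a * d - b * c) * E = 0)).resolve_left hd
      linear_combination c * h4' + a * h5'
  · simp only [map_add, map_mul, map_sub, map_neg, map_pow, map_ofNat]
    linear_combination (algebraMap K L a * algebraMap K L d -
      algebraMap K L b * algebraMap K L c) ^ 2 * hr

end lin

variable {k K L : Type*} [Field k] [Field K] [Field L] [Algebra k L] [Algebra K L]

/-- The scalars `k` are contained in `K`. -/
def Sub (k K L : Type*) [Field k] [Field K] [Field L] [Algebra k L] [Algebra K L] : Prop :=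
  ∀ c : k, ∃ d : K, algebraMap K L d = algebraMap k L c

theorem Sub.ne {c : k} {d : K} (h : algebraMap K L d = algebraMap k L c) (hc : c ≠ 0) : d ≠ 0 := by
  rintro rfl
  rw [map_zero] at h
  exact hc ((map_eq_zero (algebraMap k L)).1 h.symm)

/-- Exceptional subspaces. -/
def Exc (K : Type*) {k L : Type*} [Field k] [Field K] [Field L] [Algebra k L] [Algebra K L]
    (W : Submodule k L) : Prop :=
  ∃ x ∈ W, ∃ y ∈ W, LinearIndependent k ![x, y] ∧ Rel2 K x y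

/-- All pairs of independent elements of an exceptional plane have a relation. -/
theorem exc_rel (hs : Sub k K L) {W : Submodule k L} (hW : finrank k W = 2) (he : Exc K W)
    {u v : L} (hu : u ∈ W) (hv : v ∈ W) (h : LinearIndependent k ![u, v]) : Rel2 K u v := by
  obtain ⟨x, hx, y, hy, hi, hr⟩ := he
  obtain ⟨a, b, rfl⟩ := plane_mem hW hx hy hi hu
  obtain ⟨c, d, rfl⟩ := plane_mem hW hx hy hi hv
  have hd : a * d - b * c ≠ 0 := by
    intro h0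
    have h1 := LinearIndependent.pair_iff.1 h d (-b) (by
      have e : d • (a • x + b • y) + (-b) • (c • x + d • y) = (a * d - b * c) • x := by module
      rw [e, h0, zero_smul])
    have h2 := LinearIndependent.pair_iff.1 h (-c) a (by
      have e : (-c) • (a • x + b • y) + a • (c • x + d • y) = (a * d - b * c) • y := by module
      rw [e, h0, zero_smul])
    have h3 := LinearIndependent.pair_iff.1 h 1 0 (by
      rw [h2.2, neg_eq_zero.1 h1.2]; simp)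
    exact one_ne_zero h3.1
  obtain ⟨a', ha⟩ := hs a
  obtain ⟨b', hb⟩ := hs b
  obtain ⟨c', hc⟩ := hs c
  obtain ⟨d', hd'⟩ := hs d
  have hd2 : a' * d' - b' * c' ≠ 0 := by
    refine Sub.ne (L := L) (c := a * d - b * c) ?_ hd
    simp only [map_sub, map_mul, ha, hb, hc, hd']
  have h2 := hr.lin hd2
  rw [ha, hb, hc, hd'] at h2
  simp only [Algebra.smul_def]
  exact h2

/-- **Three exceptional planes in a three-dimensional space have no common line.** -/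
theorem no_common (hs : Sub k K L) [IsAlgClosed K] [CharZero K] {V : Submodule k L}
    (hV : finrank k V = 3)
    (hI : ∀ x ∈ V, ∀ y ∈ V, ∀ z ∈ V, LinearIndependent k ![x, y, z] → Ind4 K x y z)
    {W₁ W₂ W₃ : Submodule k L} (h₁ : W₁ ≤ V) (h₂ : W₂ ≤ V) (h₃ : W₃ ≤ V)
    (d₁ : finrank k W₁ = 2) (d₂ : finrank k W₂ = 2) (d₃ : finrank k W₃ = 2)
    (e₁ : Exc K W₁) (e₂ : Exc K W₂) (e₃ : Exc K W₃)
    (n₁₂ : W₁ ≠ W₂) (n₁₃ : W₁ ≠ W₃) (n₂₃ : W₂ ≠ W₃)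
    {x : L} (hx0 : x ≠ 0) (hx₁ : x ∈ W₁) (hx₂ : x ∈ W₂) (hx₃ : x ∈ W₃) : False := by
  obtain ⟨y, hy, hxy⟩ := extend d₁ hx₁ hx0
  obtain ⟨z, hz, hxz⟩ := extend d₂ hx₂ hx0
  have hz1 : z ∉ W₁ := fun hz1 => inter_dep d₁ d₂ n₁₂ hx₁ hx₂ hz1 hz hxz
  have hi := ind3_of hx₁ hy hxy hz1
  have hi' := i3_iff.1 hi
  obtain ⟨w, hw, hxw⟩ := extend d₃ hx₃ hx0
  obtain ⟨α, β, γ, hw'⟩ := space_mem hV (h₁ hx₁) (h₁ hy) (h₂ hz) hi (h₃ hw)
  have hm : β • y + γ • z ∈ W₃ := by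
    have : β • y + γ • z = w - α • x := by rw [← hw']; abel
    rw [this]
    exact W₃.sub_mem hw (W₃.smul_mem _ hx₃)
  have hxw' := (LinearIndependent.pair_iff' hx0).1 hxw
  have hβ : β ≠ 0 := by
    rintro rfl
    have hγ : γ ≠ 0 := by
      rintro rfl
      exact hxw' α (by rw [← hw']; simp)
    have hz3 : z ∈ W₃ := by
      have := W₃.smul_mem γ⁻¹ hm
      rwa [zero_smul, zero_add, inv_smul_smul₀ hγ] at this
    exact inter_dep d₂ d₃ n₂₃ hx₂ hx₃ hz hz3 hxz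
  have hγ : γ ≠ 0 := by
    rintro rfl
    have hy3 : y ∈ W₃ := by
      have := W₃.smul_mem β⁻¹ hm
      rwa [zero_smul, add_zero, inv_smul_smul₀ hβ] at this
    exact inter_dep d₁ d₃ n₁₃ hx₁ hx₃ hy hy3 hxy
  have r₁ := exc_rel hs d₁ e₁ hx₁ hy hxy
  have r₂ := exc_rel hs d₂ e₂ hx₂ hz hxz
  have r₃ := exc_rel hs d₃ e₃ hx₃ hm (by
    rw [LinearIndependent.pair_iff]
    intro s t hst
    obtain ⟨k1, k2, -⟩ := hi' s (t * β) (t * γ) (by rw [← hst]; module)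
    exact ⟨k1, (mul_eq_zero.1 k2).resolve_right hβ⟩)
  obtain ⟨β', hβ'⟩ := hs β
  obtain ⟨γ', hγ'⟩ := hs γ
  refine common_line (hI x (h₁ hx₁) y (h₁ hy) z (h₂ hz) hi) r₁ r₂ (a := β') (b := γ')
    (Sub.ne hβ' hβ) (Sub.ne hγ' hγ) ?_
  rw [hβ', hγ']
  simpa only [Algebra.smul_def] using r₃

/-- **There are no four exceptional planes in a three-dimensional space.** -/
theorem no_four (hs : Sub k K L) [IsAlgClosed K] [CharZero K] {V : Submodule k L}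
    (hV : finrank k V = 3)
    (hI : ∀ x ∈ V, ∀ y ∈ V, ∀ z ∈ V, LinearIndependent k ![x, y, z] → Ind4 K x y z)
    {W₁ W₂ W₃ W₄ : Submodule k L} (h₁ : W₁ ≤ V) (h₂ : W₂ ≤ V) (h₃ : W₃ ≤ V) (h₄ : W₄ ≤ V)
    (d₁ : finrank k W₁ = 2) (d₂ : finrank k W₂ = 2) (d₃ : finrank k W₃ = 2)
    (d₄ : finrank k W₄ = 2)
    (e₁ : Exc K W₁) (e₂ : Exc K W₂) (e₃ : Exc K W₃) (e₄ : Exc K W₄)
    (n₁₂ : W₁ ≠ W₂) (n₁₃ : W₁ ≠ W₃) (n₁₄ : W₁ ≠ W₄) (n₂₃ : W₂ ≠ W₃) (n₂₄ : W₂ ≠ W₄)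
    (n₃₄ : W₃ ≠ W₄) : False := by
  obtain ⟨x, hx0, hx2, hx3⟩ := meet hV h₂ h₃ d₂ d₃
  obtain ⟨y, hy0, hy1, hy3⟩ := meet hV h₁ h₃ d₁ d₃
  obtain ⟨z, hz0, hz1, hz2⟩ := meet hV h₁ h₂ d₁ d₂
  have t123 : ∀ {w : L}, w ≠ 0 → w ∈ W₁ → w ∈ W₂ → w ∈ W₃ → False :=
    fun hw0 a b c => no_common hs hV hI h₁ h₂ h₃ d₁ d₂ d₃ e₁ e₂ e₃ n₁₂ n₁₃ n₂₃ hw0 a b c
  have t124 : ∀ {w : L}, w ≠ 0 → w ∈ W₁ → w ∈ W₂ → w ∈ W₄ → False :=
    fun hw0 a b c => no_common hs hV hI h₁ h₂ h₄ d₁ d₂ d₄ e₁ e₂ e₄ n₁₂ n₁₄ n₂₄ hw0 a b c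
  have t134 : ∀ {w : L}, w ≠ 0 → w ∈ W₁ → w ∈ W₃ → w ∈ W₄ → False :=
    fun hw0 a b c => no_common hs hV hI h₁ h₃ h₄ d₁ d₃ d₄ e₁ e₃ e₄ n₁₃ n₁₄ n₃₄ hw0 a b c
  have t234 : ∀ {w : L}, w ≠ 0 → w ∈ W₂ → w ∈ W₃ → w ∈ W₄ → False :=
    fun hw0 a b c => no_common hs hV hI h₂ h₃ h₄ d₂ d₃ d₄ e₂ e₃ e₄ n₂₃ n₂₄ n₃₄ hw0 a b c
  have hxy : LinearIndependent k ![x, y] := (LinearIndependent.pair_iff' hx0).2 fun a ha =>
    t123 hy0 hy1 (by rw [← ha]; exact W₂.smul_mem _ hx2) hy3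
  have hxz : LinearIndependent k ![x, z] := (LinearIndependent.pair_iff' hx0).2 fun a ha =>
    t123 hz0 hz1 hz2 (by rw [← ha]; exact W₃.smul_mem _ hx3)
  have hi := ind3_of hx3 hy3 hxy (fun h => t123 hz0 hz1 hz2 h)
  have hi' := i3_iff.1 hi
  obtain ⟨p, hp0, hp4, hp3⟩ := meet hV h₄ h₃ d₄ d₃
  obtain ⟨α, β, hp⟩ := plane_mem d₃ hx3 hy3 hxy hp3
  obtain ⟨q, hq0, hq4, hq2⟩ := meet hV h₄ h₂ d₄ d₂
  obtain ⟨γ, δ, hq⟩ := plane_mem d₂ hx2 hz2 hxz hq2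
  have hα : α ≠ 0 := by
    rintro rfl
    have hβ : β ≠ 0 := by
      rintro rfl
      exact hp0 (by rw [← hp]; simp)
    refine t134 hy0 hy1 hy3 ?_
    have := W₄.smul_mem β⁻¹ hp4
    rwa [← hp, zero_smul, zero_add, inv_smul_smul₀ hβ] at this
  have hβ : β ≠ 0 := by
    rintro rfl
    refine t234 hx0 hx2 hx3 ?_
    have := W₄.smul_mem α⁻¹ hp4
    rwa [← hp, zero_smul, add_zero, inv_smul_smul₀ hα] at this
  have hγ : γ ≠ 0 := by
    rintro rfl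
    have hδ : δ ≠ 0 := by
      rintro rfl
      exact hq0 (by rw [← hq]; simp)
    refine t124 hz0 hz1 hz2 ?_
    have := W₄.smul_mem δ⁻¹ hq4
    rwa [← hq, zero_smul, zero_add, inv_smul_smul₀ hδ] at this
  have hδ : δ ≠ 0 := by
    rintro rfl
    refine t234 hx0 hx2 hx3 ?_
    have := W₄.smul_mem γ⁻¹ hq4
    rwa [← hq, zero_smul, add_zero, inv_smul_smul₀ hγ] at this
  obtain ⟨s, hsy, hs0⟩ : ∃ s : k, x - s • y ∈ W₄ ∧ s ≠ 0 := by
    refine ⟨-(α⁻¹ * β), ?_, neg_ne_zero.2 (mul_ne_zero (inv_ne_zero hα) hβ)⟩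
    have := W₄.smul_mem α⁻¹ hp4
    have e : α⁻¹ • p = x - (-(α⁻¹ * β)) • y := by
      rw [← hp, smul_add, inv_smul_smul₀ hα, smul_smul]
      module
    rwa [e] at this
  obtain ⟨t, ht, ht0⟩ : ∃ t : k, x - t • z ∈ W₄ ∧ t ≠ 0 := by
    refine ⟨-(γ⁻¹ * δ), ?_, neg_ne_zero.2 (mul_ne_zero (inv_ne_zero hγ) hδ)⟩
    have := W₄.smul_mem γ⁻¹ hq4
    have e : γ⁻¹ • q = x - (-(γ⁻¹ * δ)) • z := by
      rw [← hq, smul_add, inv_smul_smul₀ hγ, smul_smul]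
      module
    rwa [e] at this
  have hj' : ∀ a b c : k, a • x + b • (s • y) + c • (t • z) = 0 → a = 0 ∧ b = 0 ∧ c = 0 := by
    intro a b c habc
    obtain ⟨k1, k2, k3⟩ := hi' a (b * s) (c * t) (by rw [← habc]; module)
    exact ⟨k1, (mul_eq_zero.1 k2).resolve_right hs0, (mul_eq_zero.1 k3).resolve_right ht0⟩
  have hj : LinearIndependent k ![x, s • y, t • z] := i3_iff.2 hj'
  have my1 : s • y ∈ W₁ := W₁.smul_mem _ hy1
  have my3 : s • y ∈ W₃ := W₃.smul_mem _ hy3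
  have mz1 : t • z ∈ W₁ := W₁.smul_mem _ hz1
  have mz2 : t • z ∈ W₂ := W₂.smul_mem _ hz2
  refine four_planes (hI x (h₂ hx2) (s • y) (h₁ my1) (t • z) (h₁ mz1) hj)
    (exc_rel hs d₃ e₃ hx3 my3 ?_) (exc_rel hs d₂ e₂ hx2 mz2 ?_) (exc_rel hs d₁ e₁ my1 mz1 ?_)
    (exc_rel hs d₄ e₄ hsy ht ?_)
  · rw [LinearIndependent.pair_iff]
    intro a b hab
    obtain ⟨k1, k2, k3⟩ := hj' a b 0 (by rw [← hab]; module)
    exact ⟨k1, k2⟩
  · rw [LinearIndependent.pair_iff]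
    intro a b hab
    obtain ⟨k1, k2, k3⟩ := hj' a 0 b (by rw [← hab]; module)
    exact ⟨k1, k3⟩
  · rw [LinearIndependent.pair_iff]
    intro a b hab
    obtain ⟨k1, k2, k3⟩ := hj' 0 a b (by rw [← hab]; module)
    exact ⟨k2, k3⟩
  · rw [LinearIndependent.pair_iff]
    intro a b hab
    obtain ⟨k1, k2, k3⟩ := hj' (a + b) (-a) (-b) (by rw [← hab]; module)
    exact ⟨neg_eq_zero.1 k2, neg_eq_zero.1 k3⟩

end Pool.Agent.QR
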