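import Pool.Agent.QR.Many
import Pool.Agent.QR.Planes

/-!
# Exceptional planes through a given line, in any rank

In a space of dimension `r` at most `r - 1` exceptional planes contain a given nonzero element.
-/

namespace Pool.Agent.QR

open Module Submodule

variable {k K L : Type*} [Field k] [Field K] [Field L] [Algebra k L] [Algebra K L]

/-- `1` and `k`-linearly independent elements of `V` are linearly independent over `K`. -/
def Free (K : Type*) {k L : Type*} [Field k] [Field K] [Field L] [Algebra k L] [Algebra K L]
    (V : Submodule k L) : Prop :=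
  ∀ (ι : Type) [Fintype ι] (v : ι → L), (∀ i, v i ∈ V) → LinearIndependent k v →
    ∀ (a : K) (c : ι → K), algebraMap K L a + ∑ i, algebraMap K L (c i) * v i = 0 →
      a = 0 ∧ ∀ i, c i = 0

theorem Free.ind4 {V : Submodule k L} (h : Free K V) : ∀ x ∈ V, ∀ y ∈ V, ∀ z ∈ V,
    LinearIndependent k ![x, y, z] → Ind4 K x y z := by
  intro x hx y hy z hz hi a b c d habc
  have := h (Fin 3) ![x, y, z] (by
    intro i
    fin_cases i
    · exact hx
    · exact hy
    · exact hz) hi a ![b, c, d] (by
    rw [← habc, Fin.sum_univ_three]
    simp only [Matrix.cons_val_zero, Matrix.cons_val_one, Matrix.cons_val]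
    ring)
  exact ⟨this.1, this.2 0, this.2 1, this.2 2⟩

theorem Free.ind3 {V : Submodule k L} (h : Free K V) {x y : L} (hx : x ∈ V) (hy : y ∈ V)
    (hi : LinearIndependent k ![x, y]) (a b c : K)
    (habc : algebraMap K L a + algebraMap K L b * x + algebraMap K L c * y = 0) :
    a = 0 ∧ b = 0 ∧ c = 0 := by
  have := h (Fin 2) ![x, y] (by
    intro i
    fin_cases i
    · exact hx
    · exact hy) hi a ![b, c] (by
    rw [← habc, Fin.sum_univ_two]
    simp only [Matrix.cons_val_zero, Matrix.cons_val_one]
    ring)
  exact ⟨this.1, this.2 0, this.2 1⟩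

/-- **No `r` exceptional planes in a space of dimension `r` have a common line.** -/
theorem rank_r (hs : Sub k K L) [IsAlgClosed K] [CharZero K] [IsAlgClosed L]
    {V : Submodule k L} {r : ℕ} (hr : 0 < r)
    (hV : finrank k V = r) (hI : Free K V) (f : Fin r → Submodule k L)
    (hf : Function.Injective f) (hle : ∀ i, f i ≤ V) (hd : ∀ i, finrank k (f i) = 2)
    (he : ∀ i, Exc K (f i)) {x : L} (hx0 : x ≠ 0) (hx : ∀ i, x ∈ f i) : False := by
  classical
  have hfin : Module.Finite k V := Module.finite_of_finrank_pos (by omega)
  choose y hy hxy using fun i => extend (hd i) (hx i) hx0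
  have hxV : x ∈ V := hle ⟨0, hr⟩ (hx _)
  have hyV : ∀ i, y i ∈ V := fun i => hle i (hy i)
  let v : Option (Fin r) → L := fun o => o.elim x y
  have hvV : ∀ o, v o ∈ V := by
    rintro (_ | i)
    · exact hxV
    · exact hyV i
  obtain ⟨b, -, hb0, hspan, hli⟩ := exists_linearIndepOn_extension (K := k) (v := v)
    (s := {none}) (t := Set.univ) (LinearIndepOn.singleton hx0) (Set.subset_univ _)
  have hnone : none ∈ b := hb0 rfl
  by_cases hall : ∀ j : Fin r, some j ∈ b
  · have hb : b = Set.univ := by
      ext o
      rcases o with _ | j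
      · simp [hnone]
      · simp [hall j]
    rw [hb, linearIndepOn_univ_iff] at hli
    have h1 : LinearIndependent k (fun o => (⟨v o, hvV o⟩ : V)) := by
      refine LinearIndependent.of_comp V.subtype ?_
      exact hli
    have h2 := h1.fintype_card_le_finrank
    rw [hV] at h2
    simp at h2
  · push Not at hall
    obtain ⟨j, hj⟩ := hall
    have hyj : y j ∈ span k (v '' b) := hspan ⟨some j, trivial, rfl⟩
    set B : Finset (Option (Fin r)) := b.toFinset with hB
    have hBb : (B : Set (Option (Fin r))) = b := by rw [hB]; simp
    rw [← hBb, Submodule.mem_span_image_finset_iff_exists_fun'] at hyj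
    obtain ⟨c, hc⟩ := hyj
    have hnB : none ∈ B := by rw [hB]; simpa using hnone
    set S := (B.erase none).filter (fun i => c i ≠ 0) with hS
    have hcS : c none • x + ∑ i ∈ S, c i • v i = y j := by
      rw [← hc, ← Finset.add_sum_erase _ _ hnB]
      congr 1
      rw [hS, Finset.sum_filter_of_ne]
      intro i _ hi h0
      exact hi (by rw [h0, zero_smul])
    have hSmem : ∀ i ∈ S, i ≠ none ∧ i ∈ b ∧ c i ≠ 0 := by
      intro i hi
      rw [hS, Finset.mem_filter, Finset.mem_erase] at hi
      refine ⟨hi.1.1, ?_, hi.2⟩
      have := hi.1.2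
      rw [hB] at this
      simpa using this
    have hSsome : ∀ i ∈ S, ∃ k : Fin r, i = some k ∧ k ≠ j := by
      intro i hi
      obtain ⟨h1, h2, -⟩ := hSmem i hi
      obtain ⟨k, rfl⟩ := Option.ne_none_iff_exists'.1 h1
      refine ⟨k, rfl, ?_⟩
      rintro rfl
      exact hj h2
    have hcard : 1 < S.card := by
      by_contra hcon
      have h01 : S.card = 0 ∨ S.card = 1 := by omega
      rcases h01 with h | h
      · rw [Finset.card_eq_zero] at h
        rw [h, Finset.sum_empty, add_zero] at hcS
        exact (LinearIndependent.pair_iff' hx0).1 (hxy j) _ hcS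
      · obtain ⟨i, hi⟩ := Finset.card_eq_one.1 h
        obtain ⟨k, hk, hkj⟩ := hSsome i (by rw [hi]; exact Finset.mem_singleton_self i)
        rw [hi, Finset.sum_singleton, hk] at hcS
        have h3 : y j ∈ f k := by
          rw [← hcS]
          exact (f k).add_mem ((f k).smul_mem _ (hx k)) ((f k).smul_mem _ (hy k))
        exact inter_dep (hd k) (hd j) (hf.ne hkj) (hx k) (hx j) h3 (hy j) (hxy j)
    obtain ⟨i₀, hi₀, j₀, hj₀, hij⟩ := Finset.one_lt_card.1 hcard
    -- normal forms
    have hrel : ∀ k, Rel2 K x (y k) := fun k => exc_rel hs (hd k) (he k) (hx k) (hy k) (hxy k)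
    have hnf : ∀ i : S, ∃ p : K × K, Ty K x (v i + algebraMap K L p.1 * x + algebraMap K L p.2) := by
      rintro ⟨i, hi⟩
      obtain ⟨k, rfl, -⟩ := hSsome i hi
      obtain ⟨p, q, h⟩ := normal_form (hI.ind3 hxV (hyV k) (hxy k)) (hrel k)
      exact ⟨(p, q), h⟩
    choose p hp using hnf
    choose c' hc' using fun i => hs (c i)
    have hcK : ∀ i : S, c' i ≠ 0 := fun i => Sub.ne (hc' i) (hSmem i i.2).2.2
    have hli' : LinearIndependent k (fun o : Option S => v (o.elim none fun i => i)) := by
      have h1 : LinearIndependent k (fun i : b => v i) := hli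
      let g : Option S → b := fun o => o.elim ⟨none, hnone⟩ fun i => ⟨i, (hSmem i i.2).2.1⟩
      have hg : Function.Injective g := by
        rintro (_ | i) (_ | i') h
        · rfl
        · exact absurd (Subtype.ext_iff.1 h).symm (hSmem i' i'.2).1
        · exact absurd (Subtype.ext_iff.1 h) (hSmem i i.2).1
        · have h' : (i : Option (Fin r)) = i' := congrArg (fun o : b => (o : Option (Fin r))) h
          exact congrArg some (Subtype.ext h')
      have h2 := h1.comp g hg
      convert h2 using 1
      ext o
      rcases o with _ | i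
      · rfl
      · rfl
    have hfree := hI (Option S) _ (fun o => hvV _) hli'
    refine many (ι := S) (x := x) (Y := fun i => algebraMap K L (c' i) *
      (v i + algebraMap K L (p i).1 * x + algebraMap K L (p i).2)) ?_
      (fun i => (hp i).smul (hcK i)) (i₀ := ⟨i₀, hi₀⟩) (j₀ := ⟨j₀, hj₀⟩)
      (fun h => hij (Subtype.ext_iff.1 h)) ?_
    · intro a β γ h
      have h4 := hfree (a + ∑ i, γ i * c' i * (p i).2) (fun o => o.elim
        (β + ∑ i, γ i * c' i * (p i).1) fun i => γ i * c' i) (by
          rw [Fintype.sum_option]
          simp only [Option.elim_none, Option.elim_some, map_add, map_mul, map_sum]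
          rw [← h]
          have e1 : v none = x := rfl
          rw [e1, add_mul, Finset.sum_mul]
          have e2 : ∀ i : S, algebraMap K L (γ i) * (algebraMap K L (c' i) *
              (v i + algebraMap K L (p i).1 * x + algebraMap K L (p i).2)) =
              algebraMap K L (γ i) * algebraMap K L (c' i) * v i +
              algebraMap K L (γ i) * algebraMap K L (c' i) * algebraMap K L (p i).1 * x +
              algebraMap K L (γ i) * algebraMap K L (c' i) * algebraMap K L (p i).2 := by
            intro i
            ring
          rw [Finset.sum_congr rfl fun i _ => e2 i, Finset.sum_add_distrib,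
            Finset.sum_add_distrib]
          ring)
      obtain ⟨k0, k1⟩ := h4
      have k2 : ∀ i, γ i = 0 := fun i => by
        have := k1 (some i)
        exact (mul_eq_zero.1 this).resolve_right (hcK i)
      have k3 := k1 none
      simp only [Option.elim_none, k2, zero_mul, Finset.sum_const_zero, add_zero] at k3
      simp only [k2, zero_mul, Finset.sum_const_zero, add_zero] at k0
      exact ⟨k0, k3, k2⟩
    · have h5 := (hrel j).shift (-c' none + ∑ i : S, c' i * (p i).1)
        (∑ i : S, c' i * (p i).2)
      convert h5 using 1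
      have e3 : (y j : L) = algebraMap K L (c' none) * x + ∑ i : S, algebraMap K L (c' i) * v i := by
        rw [← hcS]
        simp only [hc', Algebra.smul_def]
        rw [Finset.sum_coe_sort S (fun i => algebraMap k L (c i) * v i)]
      rw [e3]
      simp only [map_add, map_neg, map_sum, map_mul, mul_add,
        Finset.sum_add_distrib, add_mul, Finset.sum_mul]
      have e4 : ∀ i : S, algebraMap K L (c' i) * (algebraMap K L (p i).1 * x) =
          algebraMap K L (c' i) * algebraMap K L (p i).1 * x := fun i => by ring
      rw [Finset.sum_congr rfl fun i _ => e4 i]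
      ring

end Pool.Agent.QR
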