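import Pool.Agent.QR.Basic

/-!
# Polynomials of degree at most two in two variables

A polynomial relation of total degree at most two with algebraic coefficients, written with six
coefficients in the field of algebraic numbers.
-/

namespace Pool.Agent.QR

open MvPolynomial

/-- The exponent `(i, j)`. -/
noncomputable def ex (i j : ℕ) : Fin 2 →₀ ℕ := Finsupp.single 0 i + Finsupp.single 1 j

@[simp] theorem ex_zero (i j : ℕ) : ex i j 0 = i := by simp [ex]

@[simp] theorem ex_one (i j : ℕ) : ex i j 1 = j := by simp [ex]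

theorem ex_eta (m : Fin 2 →₀ ℕ) : ex (m 0) (m 1) = m := by
  ext i
  fin_cases i
  · simp
  · simp

theorem ex_inj : Function.Injective fun p : ℕ × ℕ => ex p.1 p.2 := by
  intro p q h
  have h0 := DFunLike.congr_fun h 0
  have h1 := DFunLike.congr_fun h 1
  simp only [ex_zero] at h0
  simp only [ex_one] at h1
  exact Prod.ext h0 h1

theorem coeff_big {P : MvPolynomial (Fin 2) ℂ} (hP : P.totalDegree ≤ 2) {m : Fin 2 →₀ ℕ}
    (hm : 2 < m 0 + m 1) : P.coeff m = 0 := by
  apply coeff_eq_zero_of_totalDegree_lt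
  refine lt_of_le_of_lt hP (lt_of_lt_of_le hm ?_)
  have : ∑ i ∈ m.support, m i = m 0 + m 1 := by
    have := Finsupp.sum_fintype m (fun _ e => e) (fun _ => rfl)
    rw [Finsupp.sum] at this
    rw [this, Fin.sum_univ_two]
  exact this.ge

/-- The six coefficients of a polynomial of degree at most two. -/
theorem eval_six {P : MvPolynomial (Fin 2) ℂ} (hP : P.totalDegree ≤ 2) (x y : ℂ) :
    eval ![x, y] P = P.coeff (ex 0 2) * y ^ 2 + P.coeff (ex 1 1) * (x * y) +
      P.coeff (ex 2 0) * x ^ 2 + P.coeff (ex 0 1) * y + P.coeff (ex 1 0) * x +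
      P.coeff (ex 0 0) := by
  rw [eval_eq']
  have hsub : P.support ⊆ (Finset.range 3 ×ˢ Finset.range 3).map
      ⟨fun p : ℕ × ℕ => ex p.1 p.2, ex_inj⟩ := by
    intro m hm
    rw [mem_support_iff] at hm
    have h2 : m 0 + m 1 ≤ 2 := by
      by_contra hcon
      exact hm (coeff_big hP (by omega))
    rw [Finset.mem_map]
    refine ⟨(m 0, m 1), ?_, ex_eta m⟩
    rw [Finset.mem_product, Finset.mem_range, Finset.mem_range]
    constructor
    · change m 0 < 3; omega
    · change m 1 < 3; omega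
  rw [Finset.sum_subset hsub (fun m _ hm => by
    rw [notMem_support_iff.1 hm, zero_mul]), Finset.sum_map, Finset.sum_product]
  have e12 : P.coeff (ex 1 2) = 0 := coeff_big hP (by simp)
  have e21 : P.coeff (ex 2 1) = 0 := coeff_big hP (by simp)
  have e22 : P.coeff (ex 2 2) = 0 := coeff_big hP (by simp)
  simp only [Finset.sum_range_succ, Finset.sum_range_zero, Fin.prod_univ_two,
    Function.Embedding.coeFn_mk, ex_zero, ex_one, Matrix.cons_val_zero, Matrix.cons_val_one,
    e12, e21, e22]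
  ring

/-- `x` and `y` satisfy a nonzero polynomial relation of total degree at most two with algebraic
coefficients. -/
def Quad (x y : ℂ) : Prop :=
  ∃ P : MvPolynomial (Fin 2) ℂ, P ≠ 0 ∧ P.totalDegree ≤ 2 ∧
    (∀ m, IsAlgebraic ℚ (P.coeff m)) ∧ eval ![x, y] P = 0

theorem rel_of_quad {x y : ℂ} (h : Quad x y) : Rel2 (algebraicClosure ℚ ℂ) x y := by
  obtain ⟨P, h0, h2, ha, he⟩ := h
  have hm : ∀ m, P.coeff m ∈ algebraicClosure ℚ ℂ := fun m => mem_algebraicClosure_iff.2 (ha m)
  refine ⟨⟨_, hm (ex 0 2)⟩, ⟨_, hm (ex 1 1)⟩, ⟨_, hm (ex 2 0)⟩, ⟨_, hm (ex 0 1)⟩,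
    ⟨_, hm (ex 1 0)⟩, ⟨_, hm (ex 0 0)⟩, ?_, ?_⟩
  · rintro ⟨k1, k2, k3, k4, k5, k6⟩
    rw [Subtype.ext_iff] at k1 k2 k3 k4 k5 k6
    apply h0
    ext m
    rw [coeff_zero]
    by_cases h3 : 2 < m 0 + m 1
    · exact coeff_big h2 h3
    · rw [← ex_eta m]
      have a1 : m 0 ≤ 2 := by omega
      have a2 : m 1 ≤ 2 := by omega
      generalize m 0 = i at *
      generalize m 1 = j at *
      interval_cases i <;> interval_cases j <;> first | assumption | omega
  · rw [eval_six h2] at he
    exact he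

end Pool.Agent.QR
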