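import Pool.Agent.QR.RankR
import Pool.Agent.QR.Poly

/-!
# Quadratic relations, from linear independence over the algebraic numbers

Let `V` be a finite-dimensional `ℚ`-subspace of `ℂ` such that `1` and `ℚ`-linearly independent
elements of `V` are linearly independent over the algebraic numbers (`Free`); for instance, by
Baker's theorem, the space spanned by logarithms of algebraic numbers. A plane in `V` is
exceptional if it contains two independent elements with a relation of degree at most two. A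
three-dimensional subspace of `V` contains at most three exceptional planes, and at most
`dim V - 1` of them contain a given nonzero element.
-/

namespace Pool.Agent.QR

open Module Submodule

theorem qsmul (q : ℚ) (x : ℂ) : q • x = (q : ℂ) * x := by
  rw [Algebra.smul_def, eq_ratCast]

theorem subQ : Sub ℚ (algebraicClosure ℚ ℂ) ℂ := fun c => ⟨(c : algebraicClosure ℚ ℂ), by
  rw [map_ratCast, eq_ratCast]⟩

/-- Baker's theorem. -/
def BakerAll : Prop :=
  ∀ (ι : Type) [Fintype ι] (t : ι → ℂ), LinearIndependent ℚ t →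
    (∀ i, IsAlgebraic ℚ (Complex.exp (t i))) →
    ∀ (b : ι → ℂ) (b0 : ℂ), (∀ i, IsAlgebraic ℚ (b i)) → IsAlgebraic ℚ b0 →
      b0 + ∑ i, b i * t i = 0 → b0 = 0 ∧ ∀ i, b i = 0

theorem exp_span {ι : Type*} {t : ι → ℂ} (he : ∀ i, IsAlgebraic ℚ (Complex.exp (t i))) {x : ℂ}
    (hx : x ∈ span ℚ (Set.range t)) : IsAlgebraic ℚ (Complex.exp x) := by
  induction hx using span_induction with
  | mem x h => obtain ⟨i, rfl⟩ := h; exact he i
  | zero => rw [Complex.exp_zero]; exact isAlgebraic_one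
  | add x y _ _ hx hy => rw [Complex.exp_add]; exact hx.mul hy
  | smul q x _ hx =>
    rw [qsmul]
    have h1 : Complex.exp (q * x) ^ q.den = Complex.exp x ^ q.num := by
      rw [← Complex.exp_nat_mul, ← Complex.exp_int_mul]
      congr 1
      have h2 : (q.den : ℂ) * (q : ℂ) = (q.num : ℂ) := by
        have := Rat.den_mul_eq_num q
        exact_mod_cast this
      rw [← mul_assoc, h2]
    refine IsAlgebraic.of_pow q.den_pos ?_
    rw [h1]
    obtain ⟨n, hn | hn⟩ := q.num.eq_nat_or_neg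
    · rw [hn, zpow_natCast]
      exact hx.pow n
    · rw [hn, zpow_neg, zpow_natCast]
      exact (hx.pow n).inv

theorem free_log (hB : BakerAll) {ι : Type*} {t : ι → ℂ}
    (he : ∀ i, IsAlgebraic ℚ (Complex.exp (t i))) :
    Free (algebraicClosure ℚ ℂ) (span ℚ (Set.range t)) := by
  intro κ _ v hv hi a c h
  have ha : ∀ a : algebraicClosure ℚ ℂ, IsAlgebraic ℚ (a : ℂ) := fun a =>
    mem_algebraicClosure_iff.1 a.2
  have := hB κ v hi (fun i => exp_span he (hv i)) (fun i => (c i : ℂ)) a (fun i => ha _) (ha a) h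
  exact ⟨Subtype.ext this.1, fun i => Subtype.ext (this.2 i)⟩

theorem encard_le_of {α : Type*} {s : Set α} (n : ℕ)
    (h : ∀ f : Fin (n + 1) → α, Function.Injective f → (∀ i, f i ∈ s) → False) :
    s.encard ≤ n := by
  by_contra hcon
  have h1 : ((n + 1 : ℕ) : ℕ∞) ≤ s.encard := by
    push_cast
    exact Order.add_one_le_of_lt (not_le.1 hcon)
  obtain ⟨t, hts, ht⟩ := Set.exists_subset_encard_eq h1
  have hf : t.Finite := Set.finite_of_encard_eq_coe ht
  have : Nat.card t = n + 1 := by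
    have := hf.cast_ncard_eq
    rw [ht] at this
    exact_mod_cast this
  have hft : Finite t := hf
  let e := Finite.equivFinOfCardEq this
  exact h (fun i => (e.symm i : α)) (Subtype.val_injective.comp e.symm.injective)
    fun i => hts (e.symm i).2

section

variable {k : Type*} [Field k] [Algebra k ℂ]

/-- The exceptional planes in `V`. -/
def ExcP (V : Submodule k ℂ) : Set (Submodule k ℂ) :=
  {W | W ≤ V ∧ finrank k W = 2 ∧
    ∃ x ∈ W, ∃ y ∈ W, LinearIndependent k ![x, y] ∧ Quad x y}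

theorem exc_of {V W : Submodule k ℂ} (h : W ∈ ExcP V) : Exc (algebraicClosure ℚ ℂ) W := by
  obtain ⟨-, -, x, hx, y, hy, hi, hq⟩ := h
  exact ⟨x, hx, y, hy, hi, rel_of_quad hq⟩

/-- At most `r - 1` exceptional planes contain a given nonzero element. -/
theorem through (hs : Sub k (algebraicClosure ℚ ℂ) ℂ) {V : Submodule k ℂ}
    (hF : Free (algebraicClosure ℚ ℂ) V) [Module.Finite k V] {x : ℂ} (hx : x ≠ 0) :
    {W ∈ ExcP V | x ∈ W}.encard ≤ (finrank k V - 1 : ℕ) := by
  have : IsAlgClosed (algebraicClosure ℚ ℂ) := (algebraicClosure.isAlgClosure ℚ ℂ).isAlgClosed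
  refine encard_le_of _ fun f hf hm => ?_
  have hr : 0 < finrank k V := by
    have h0 := Submodule.finrank_mono (hm 0).1.1
    rw [(hm 0).1.2.1] at h0
    omega
  obtain ⟨n, hn⟩ : ∃ n, finrank k V = n + 1 := ⟨finrank k V - 1, by omega⟩
  have hn' : finrank k V - 1 = n := by omega
  revert f
  rw [hn']
  intro f hf hm
  exact rank_r hs (Nat.succ_pos n) hn hF f hf (fun i => (hm i).1.1) (fun i => (hm i).1.2.1)
    (fun i => exc_of (hm i).1) hx (fun i => (hm i).2)

theorem Free.mono {K : Type*} [Field K] [Algebra K ℂ] {V U : Submodule k ℂ} (h : Free K V)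
    (hU : U ≤ V) : Free K U := fun ι _ v hv => h ι v fun i => hU (hv i)

theorem ExcP.mono {V U W : Submodule k ℂ} (hW : W ∈ ExcP V) (hWU : W ≤ U) : W ∈ ExcP U :=
  ⟨hWU, hW.2⟩

/-- There are no four exceptional planes in a three-dimensional space. -/
theorem planes_four (hs : Sub k (algebraicClosure ℚ ℂ) ℂ) {V : Submodule k ℂ}
    (hF : Free (algebraicClosure ℚ ℂ) V)
    (hV : finrank k V = 3) (f : Fin 4 → Submodule k ℂ) (hf : Function.Injective f)
    (hm : ∀ i, f i ∈ ExcP V) : False := by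
  have : IsAlgClosed (algebraicClosure ℚ ℂ) := (algebraicClosure.isAlgClosure ℚ ℂ).isAlgClosed
  exact no_four hs hV hF.ind4 (hm 0).1 (hm 1).1 (hm 2).1 (hm 3).1 (hm 0).2.1 (hm 1).2.1
    (hm 2).2.1 (hm 3).2.1 (exc_of (hm 0)) (exc_of (hm 1)) (exc_of (hm 2)) (exc_of (hm 3))
    (hf.ne (by decide)) (hf.ne (by decide)) (hf.ne (by decide)) (hf.ne (by decide))
    (hf.ne (by decide)) (hf.ne (by decide))

/-- There are at most three exceptional planes in a three-dimensional subspace. -/
theorem planes (hs : Sub k (algebraicClosure ℚ ℂ) ℂ) {V : Submodule k ℂ}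
    (hF : Free (algebraicClosure ℚ ℂ) V) {U : Submodule k ℂ}
    (hUV : U ≤ V) (hU : finrank k U = 3) : {W ∈ ExcP V | W ≤ U}.encard ≤ 3 :=
  encard_le_of 3 fun f hf hm => planes_four hs (hF.mono hUV) hU f hf fun i =>
    ExcP.mono (hm i).1 (hm i).2

/-- Both statements for a space with a basis. -/
theorem both (hs : Sub k (algebraicClosure ℚ ℂ) ℂ) (r : ℕ) (t : Fin r → ℂ)
    (ht : LinearIndependent k t) (hF : Free (algebraicClosure ℚ ℂ) (span k (Set.range t))) :
    (∀ U ≤ span k (Set.range t), finrank k U = 3 →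
      {W ∈ ExcP (span k (Set.range t)) | W ≤ U}.encard ≤ 3) ∧
    (∀ x : ℂ, x ≠ 0 → {W ∈ ExcP (span k (Set.range t)) | x ∈ W}.encard ≤ (r - 1 : ℕ)) := by
  have hr : finrank k (span k (Set.range t)) = r := by
    rw [finrank_span_eq_card ht]; simp
  have hfin : Module.Finite k (span k (Set.range t)) :=
    Module.Finite.span_of_finite k (Set.finite_range t)
  refine ⟨fun U hU hU3 => planes hs hF hU hU3, fun x hx => ?_⟩
  have := through hs hF hx
  rwa [hr] at this

end

/-- The exceptional pairs of translates of `t`, `u` by rational multiples of `2πi`. -/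
def ExcPairs (t u : ℂ) : Set (ℚ × ℚ) :=
  {q | Quad (t + q.1 * (2 * (Real.pi : ℂ) * Complex.I))
    (u + q.2 * (2 * (Real.pi : ℂ) * Complex.I))}

/-- The plane of a pair. -/
noncomputable def PP (t u p : ℂ) (q : ℚ × ℚ) : Submodule ℚ ℂ :=
  span ℚ {t + q.1 • p, u + q.2 • p}

theorem pp_ind {t u p : ℂ} (hi : LinearIndependent ℚ ![t, u, p]) (q : ℚ × ℚ) :
    LinearIndependent ℚ ![t + q.1 • p, u + q.2 • p] := by
  rw [LinearIndependent.pair_iff]
  intro a b hab
  obtain ⟨k1, k2, -⟩ := i3_iff.1 hi a b (a * q.1 + b * q.2) (by rw [← hab]; module)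
  exact ⟨k1, k2⟩

theorem pp_mem {t u p : ℂ} (hi : LinearIndependent ℚ ![t, u, p]) {q : ℚ × ℚ} {a b c : ℚ}
    (h : a • t + b • u + c • p ∈ PP t u p q) : c = a * q.1 + b * q.2 := by
  obtain ⟨r, s, hrs⟩ := mem_span_pair.1 h
  obtain ⟨k1, k2, k3⟩ := i3_iff.1 hi (r - a) (s - b) (r * q.1 + s * q.2 - c) (by
    have e : (r - a) • t + (s - b) • u + (r * q.1 + s * q.2 - c) • p =
      (r • (t + q.1 • p) + s • (u + q.2 • p)) - (a • t + b • u + c • p) := by module
    rw [e, hrs, sub_self])
  rw [sub_eq_zero] at k1 k2 k3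
  rw [← k3, k1, k2]

theorem pp_mem' {t u p : ℂ} {q : ℚ × ℚ} {a b c : ℚ} (h : c = a * q.1 + b * q.2) :
    a • t + b • u + c • p ∈ PP t u p q := by
  refine mem_span_pair.2 ⟨a, b, ?_⟩
  rw [h]
  module

theorem pp_inj {t u p : ℂ} (hi : LinearIndependent ℚ ![t, u, p]) :
    Function.Injective (PP t u p) := by
  intro q r hqr
  have h1 : (1 : ℚ) • t + (0 : ℚ) • u + q.1 • p ∈ PP t u p r := by
    rw [← hqr]; exact pp_mem' (by ring)
  have h2 : (0 : ℚ) • t + (1 : ℚ) • u + q.2 • p ∈ PP t u p r := by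
    rw [← hqr]; exact pp_mem' (by ring)
  have k1 := pp_mem hi h1
  have k2 := pp_mem hi h2
  exact Prod.ext (by linarith) (by linarith)

theorem pp_exc {t u : ℂ} (hi : LinearIndependent ℚ ![t, u, 2 * (Real.pi : ℂ) * Complex.I])
    {q : ℚ × ℚ} (hq : q ∈ ExcPairs t u) :
    PP t u (2 * (Real.pi : ℂ) * Complex.I) q ∈ ExcP (span ℚ (Set.range ![t, u, 2 * (Real.pi : ℂ) * Complex.I])) := by
  set p := 2 * (Real.pi : ℂ) * Complex.I with hp
  have mt : t ∈ span ℚ (Set.range ![t, u, p]) := subset_span ⟨0, rfl⟩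
  have mu : u ∈ span ℚ (Set.range ![t, u, p]) := subset_span ⟨1, rfl⟩
  have mp : p ∈ span ℚ (Set.range ![t, u, p]) := subset_span ⟨2, rfl⟩
  refine ⟨?_, ?_, t + q.1 • p, subset_span (by simp), u + q.2 • p, subset_span (by simp),
    pp_ind hi q, ?_⟩
  · rw [PP, span_le]
    rintro z (rfl | rfl)
    · exact add_mem mt (smul_mem _ _ mp)
    · exact add_mem mu (smul_mem _ _ mp)
  · exact finrank_pair (pp_ind hi q)
  · rw [qsmul, qsmul]
    exact hq

theorem exp_p : Complex.exp (2 * (Real.pi : ℂ) * Complex.I) = 1 := Complex.exp_two_pi_mul_I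

section

variable (hB : BakerAll) {t u : ℂ}
  (hi : LinearIndependent ℚ ![t, u, 2 * (Real.pi : ℂ) * Complex.I])
  (ht : IsAlgebraic ℚ (Complex.exp t)) (hu : IsAlgebraic ℚ (Complex.exp u))

include ht hu in
theorem exp3 : ∀ i, IsAlgebraic ℚ
    (Complex.exp ((![t, u, 2 * (Real.pi : ℂ) * Complex.I] : Fin 3 → ℂ) i)) := by
  intro i
  fin_cases i
  · exact ht
  · exact hu
  · change IsAlgebraic ℚ (Complex.exp (2 * (Real.pi : ℂ) * Complex.I))
    rw [exp_p]
    exact isAlgebraic_one

include hB hi ht hu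

theorem pairs_four (f : Fin 4 → ℚ × ℚ) (hf : Function.Injective f)
    (hm : ∀ i, f i ∈ ExcPairs t u) : False :=
  planes_four subQ (free_log hB (exp3 ht hu)) (by rw [finrank_span_eq_card hi]; simp) _
    ((pp_inj hi).comp hf) fun i => pp_exc hi (hm i)

theorem pairs_line {a b c : ℚ} (hab : ¬ (a = 0 ∧ b = 0)) :
    {q ∈ ExcPairs t u | a * q.1 + b * q.2 = c}.encard ≤ 2 := by
  have hx : a • t + b • u + c • (2 * (Real.pi : ℂ) * Complex.I) ≠ 0 := by
    intro h
    obtain ⟨k1, k2, -⟩ := i3_iff.1 hi a b c h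
    exact hab ⟨k1, k2⟩
  have hr : finrank ℚ (span ℚ (Set.range ![t, u, 2 * (Real.pi : ℂ) * Complex.I])) - 1 = 2 := by
    rw [finrank_span_eq_card hi]; simp
  have hfin : Module.Finite ℚ (span ℚ (Set.range ![t, u, 2 * (Real.pi : ℂ) * Complex.I])) :=
    Module.finite_of_finrank_pos (by omega)
  have hth := through subQ (free_log hB (exp3 ht hu)) hx
  rw [hr] at hth
  refine le_trans ?_ hth
  refine Set.encard_le_encard_of_injOn (f := PP t u (2 * (Real.pi : ℂ) * Complex.I)) ?_
    (pp_inj hi).injOn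
  rintro q ⟨hq, hq'⟩
  exact ⟨pp_exc hi hq, pp_mem' hq'.symm⟩

theorem pairs : (ExcPairs t u).encard ≤ 3 :=
  encard_le_of 3 fun f hf hm => pairs_four hB hi ht hu f hf hm

end

/-- Complex conjugation. -/
theorem Quad.conj {x y : ℂ} (h : Quad x y) :
    Quad ((starRingEnd ℂ) x) ((starRingEnd ℂ) y) := by
  obtain ⟨P, h0, h2, ha, he⟩ := h
  refine ⟨MvPolynomial.map (starRingEnd ℂ) P, ?_, ?_, ?_, ?_⟩
  · intro h
    exact h0 ((MvPolynomial.map_injective _ (starRingEnd ℂ).injective) (by rw [h, map_zero]))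
  · refine le_trans ?_ h2
    exact Finset.sup_mono (MvPolynomial.support_map_subset _ _)
  · intro m
    rw [MvPolynomial.coeff_map]
    exact (ha m).algHom (starRingEnd ℂ).toRatAlgHom
  · rw [MvPolynomial.eval_map]
    have h3 := congrArg (starRingEnd ℂ) he
    rw [map_zero, MvPolynomial.eval, MvPolynomial.coe_eval₂Hom, MvPolynomial.eval₂_comp_left] at h3
    rw [← h3]
    congr 1
    ext i
    fin_cases i <;> rfl

section

variable (hB : BakerAll) {t u : ℂ}
  (hi : LinearIndependent ℚ ![t, u, 2 * (Real.pi : ℂ) * Complex.I])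
  (ht : IsAlgebraic ℚ (Complex.exp t)) (hu : IsAlgebraic ℚ (Complex.exp u))

theorem neg_mem {t u : ℂ} (htr : t.im = 0) (hur : u.im = 0) {q : ℚ × ℚ} (hq : q ∈ ExcPairs t u) :
    -q ∈ ExcPairs t u := by
  have h := Quad.conj hq
  have ct : (starRingEnd ℂ) t = t := Complex.conj_eq_iff_im.2 htr
  have cu : (starRingEnd ℂ) u = u := Complex.conj_eq_iff_im.2 hur
  have c1 : ∀ r : ℚ, (starRingEnd ℂ) ((r : ℂ) * (2 * (Real.pi : ℂ) * Complex.I)) =
      ((-r : ℚ) : ℂ) * (2 * (Real.pi : ℂ) * Complex.I) := by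
    intro r
    simp only [map_mul, Complex.conj_I, Complex.conj_ofReal, map_ratCast, Rat.cast_neg,
      map_ofNat]
    ring
  rw [map_add, map_add, ct, cu, c1, c1] at h
  exact h

include hB hi ht hu

/-- Real logarithms: the exceptional pairs are contained in `{d, -d}`. -/
theorem pairs_real (htr : t.im = 0) (hur : u.im = 0) :
    ∃ d : ℚ × ℚ, ExcPairs t u ⊆ {d, -d} := by
  by_cases h : ∃ d ∈ ExcPairs t u, d ≠ 0
  · obtain ⟨d, hd, hd0⟩ := h
    have hd' := neg_mem htr hur hd
    have hne : d ≠ -d := fun h => hd0 (self_eq_neg.1 h)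
    refine ⟨d, fun q hq => ?_⟩
    by_contra hcon
    rw [Set.mem_insert_iff, Set.mem_singleton_iff, not_or] at hcon
    obtain ⟨n1, n2⟩ := hcon
    by_cases hq0 : q = 0
    · subst hq0
      have hl := pairs_line hB hi ht hu (a := d.2) (b := -d.1) (c := 0) (by
        rintro ⟨k1, k2⟩
        exact hd0 (Prod.ext (neg_eq_zero.1 k2) k1))
      have hs : ({0, d, -d} : Set (ℚ × ℚ)) ⊆
          {q ∈ ExcPairs t u | d.2 * q.1 + -d.1 * q.2 = 0} := by
        rintro z (rfl | rfl | rfl)
        · exact ⟨hq, by simp⟩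
        · exact ⟨hd, by ring⟩
        · refine ⟨hd', ?_⟩
          simp only [Prod.fst_neg, Prod.snd_neg]
          ring
      have h3 : ({0, d, -d} : Set (ℚ × ℚ)).encard = 3 :=
        Set.encard_eq_three.2 ⟨0, d, -d, n1, n2, hne, rfl⟩
      have h4 := (Set.encard_le_encard hs).trans hl
      rw [h3] at h4
      exact absurd h4 (by decide)
    · have hq' := neg_mem htr hur hq
      have hneq : q ≠ -q := fun h => hq0 (self_eq_neg.1 h)
      refine pairs_four hB hi ht hu ![d, -d, q, -q] ?_ ?_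
      · have m1 : d ≠ q := fun h => n1 h.symm
        have m2 : d ≠ -q := fun h => n2 (by rw [h, neg_neg])
        have m3 : -d ≠ q := fun h => n2 h.symm
        have m4 : -d ≠ -q := fun h => m1 (neg_injective h)
        intro i j hij
        fin_cases i <;> fin_cases j <;>
          simp_all [Matrix.cons_val_zero, Matrix.cons_val_one, Matrix.cons_val]
      · intro i
        fin_cases i
        · exact hd
        · exact hd'
        · exact hq
        · exact hq'
  · push Not at h
    refine ⟨0, fun q hq => ?_⟩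
    rw [h q hq]
    simp

end

end Pool.Agent.QR
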