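import Mathlib

/-!
# Quadratic relations: basic algebra

`K` is an algebraically closed field of characteristic zero, `L` a field extension of `K`.
`Rel2 K u v` says that `u, v` satisfy a non-zero polynomial relation of degree at most two over `K`.
-/

namespace Pool.Agent.QR

open Polynomial

variable {K L : Type*} [Field K] [Field L] [Algebra K L]

/-- `u` and `v` satisfy a non-zero polynomial relation of degree at most two over `K`. -/
def Rel2 (K : Type*) {L : Type*} [Field K] [Field L] [Algebra K L] (u v : L) : Prop :=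
  ∃ A B C D E F : K, ¬ (A = 0 ∧ B = 0 ∧ C = 0 ∧ D = 0 ∧ E = 0 ∧ F = 0) ∧
    algebraMap K L A * v ^ 2 + algebraMap K L B * (u * v) + algebraMap K L C * u ^ 2 +
      algebraMap K L D * v + algebraMap K L E * u + algebraMap K L F = 0

/-- An element outside `K` is transcendental over the algebraically closed field `K`. -/
theorem transc [IsAlgClosed K] {x : L} (hx : ∀ c : K, x ≠ algebraMap K L c) :
    Transcendental K x := by
  intro h
  have hi : IsIntegral K x := h.isIntegral
  have h1 := IsAlgClosed.degree_eq_one_of_irreducible K (minpoly.irreducible hi)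
  obtain ⟨c, hc⟩ := minpoly.mem_range_of_degree_eq_one K x h1
  exact hx c hc.symm

/-- Independence of `1, x, y, z` written out. -/
def Ind4 (K : Type*) {L : Type*} [Field K] [Field L] [Algebra K L] (x y z : L) : Prop :=
  ∀ a b c d : K, algebraMap K L a + algebraMap K L b * x + algebraMap K L c * y +
    algebraMap K L d * z = 0 → a = 0 ∧ b = 0 ∧ c = 0 ∧ d = 0

theorem Ind4.transc [IsAlgClosed K] {x y z : L} (h : Ind4 K x y z) : Transcendental K x := by
  refine QR.transc fun c hc => ?_
  have := h (-c) 1 0 0 (by rw [hc]; simp)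
  exact one_ne_zero this.2.1

/-- A polynomial relation of `x` is trivial. -/
theorem pol0 {x : L} (hx : Transcendental K x) {P : K[X]} (h : aeval x P = 0) : P = 0 := by
  by_contra hP
  exact hx ⟨P, hP, h⟩

/-- Coefficient comparison up to degree six. -/
theorem coef6 {x : L} (hx : Transcendental K x) (a0 a1 a2 a3 a4 a5 a6 : K)
    (h : algebraMap K L a0 + algebraMap K L a1 * x + algebraMap K L a2 * x ^ 2 +
      algebraMap K L a3 * x ^ 3 + algebraMap K L a4 * x ^ 4 + algebraMap K L a5 * x ^ 5 +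
      algebraMap K L a6 * x ^ 6 = 0) :
    a0 = 0 ∧ a1 = 0 ∧ a2 = 0 ∧ a3 = 0 ∧ a4 = 0 ∧ a5 = 0 ∧ a6 = 0 := by
  have hP := pol0 (K := K) hx (P := C a0 + C a1 * X + C a2 * X ^ 2 + C a3 * X ^ 3 + C a4 * X ^ 4 +
    C a5 * X ^ 5 + C a6 * X ^ 6) (by simpa using h)
  have h0 := congrArg (fun P => Polynomial.coeff P 0) hP
  have h1 := congrArg (fun P => Polynomial.coeff P 1) hP
  have h2 := congrArg (fun P => Polynomial.coeff P 2) hP
  have h3 := congrArg (fun P => Polynomial.coeff P 3) hP
  have h4 := congrArg (fun P => Polynomial.coeff P 4) hP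
  have h5 := congrArg (fun P => Polynomial.coeff P 5) hP
  have h6 := congrArg (fun P => Polynomial.coeff P 6) hP
  simp [Polynomial.coeff_X, Polynomial.coeff_C, Polynomial.coeff_X_pow] at h0 h1 h2 h3 h4 h5 h6
  exact ⟨h0, h1, h2, h3, h4, h5, h6⟩

/-- The quadratic polynomial `p X² + q X + r`. -/
noncomputable def qd (p q r : K) : K[X] := C p * X ^ 2 + C q * X + C r

theorem qd_aeval (p q r : K) (x : L) : aeval x (qd p q r) =
    algebraMap K L p * x ^ 2 + algebraMap K L q * x + algebraMap K L r := by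
  simp [qd]

theorem qd_coprime (p q r : K) (hd : q ^ 2 - 4 * p * r ≠ 0) :
    IsCoprime (qd p q r) (derivative (qd p q r)) := by
  refine ⟨C (-(4 * p) / (q ^ 2 - 4 * p * r)), C (1 / (q ^ 2 - 4 * p * r)) *
    derivative (qd p q r), ?_⟩
  have hder : derivative (qd p q r) = C (2 * p) * X + C q := by
    simp [qd]
    have h2 : (C (2 : K) : K[X]) = 2 := map_ofNat C 2
    rw [h2]
    ring
  rw [hder, qd]
  have e1 : (C (-(4 * p) / (q ^ 2 - 4 * p * r)) : K[X]) =
      C (1 / (q ^ 2 - 4 * p * r)) * C (-(4 * p)) := by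
    rw [← C_mul]; congr 1; field_simp
  have e2 : (C (1 / (q ^ 2 - 4 * p * r)) : K[X]) * C (q ^ 2 - 4 * p * r) = 1 := by
    rw [← C_mul, one_div_mul_cancel hd, C_1]
  rw [e1]
  rw [← e2]
  simp only [C_mul, C_sub, C_pow, C_neg]
  have h4 : (C (4 : K) : K[X]) = 4 := map_ofNat C 4
  have h2 : (C (2 : K) : K[X]) = 2 := map_ofNat C 2
  rw [h4, h2]
  ring

theorem qd_squarefree (p q r : K) (hd : q ^ 2 - 4 * p * r ≠ 0) : Squarefree (qd p q r) :=
  (show (qd p q r).Separable from qd_coprime p q r hd).squarefree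

/-- `qd p q r` is not a constant if the discriminant is not zero. -/
theorem qd_not_unit (p q r : K) (hd : q ^ 2 - 4 * p * r ≠ 0) : ¬ IsUnit (qd p q r) := by
  intro h
  rw [Polynomial.isUnit_iff] at h
  obtain ⟨c, -, hc⟩ := h
  have h1 := congrArg (fun P => Polynomial.coeff P 1) hc
  have h2 := congrArg (fun P => Polynomial.coeff P 2) hc
  simp [qd, Polynomial.coeff_X, Polynomial.coeff_C, Polynomial.coeff_X_pow] at h1 h2
  rw [← h1, ← h2] at hd
  simp at hd

/-- If `D² P = B² Q` with `P, Q` squarefree and `D, B` not both zero, then `P` and `Q` are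
associated. -/
theorem assoc_of_sq {P Q B D : K[X]} (hP : Squarefree P) (hQ : Squarefree Q)
    (hBD : ¬ (B = 0 ∧ D = 0)) (h : D ^ 2 * P = B ^ 2 * Q) : Associated P Q := by
  classical
  have hg : EuclideanDomain.gcd B D ≠ 0 := by
    intro h0
    rw [EuclideanDomain.gcd_eq_zero_iff] at h0
    exact hBD h0
  obtain ⟨B', hB'⟩ := EuclideanDomain.gcd_dvd_left B D
  obtain ⟨D', hD'⟩ := EuclideanDomain.gcd_dvd_right B D
  have hbz := EuclideanDomain.gcd_eq_gcd_ab B D
  generalize EuclideanDomain.gcd B D = g at hg hB' hD' hbz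
  have hco : IsCoprime B' D' := by
    refine ⟨EuclideanDomain.gcdA B D, EuclideanDomain.gcdB B D, ?_⟩
    have h3 : g * (EuclideanDomain.gcdA B D * B' + EuclideanDomain.gcdB B D * D') = g * 1 := by
      generalize EuclideanDomain.gcdA B D = a at *
      generalize EuclideanDomain.gcdB B D = b at *
      rw [hB', hD'] at hbz
      rw [mul_one]
      conv_rhs => rw [hbz]
      ring
    exact mul_left_cancel₀ hg h3
  have h' : D' ^ 2 * P = B' ^ 2 * Q := by
    have h3 : g ^ 2 * (D' ^ 2 * P) = g ^ 2 * (B' ^ 2 * Q) := by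
      calc g ^ 2 * (D' ^ 2 * P) = (g * D') ^ 2 * P := by ring
        _ = D ^ 2 * P := by rw [← hD']
        _ = B ^ 2 * Q := h
        _ = (g * B') ^ 2 * Q := by rw [← hB']
        _ = g ^ 2 * (B' ^ 2 * Q) := by ring
    exact mul_left_cancel₀ (pow_ne_zero 2 hg) h3
  have hD1 : IsUnit D' := by
    refine hQ D' ?_
    have h4 : D' ^ 2 ∣ B' ^ 2 * Q := ⟨P, h'.symm⟩
    have h5 : IsCoprime (D' ^ 2) (B' ^ 2) := hco.symm.pow
    rw [← pow_two]
    exact h5.dvd_of_dvd_mul_left h4
  have hB1 : IsUnit B' := by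
    refine hP B' ?_
    have h4 : B' ^ 2 ∣ D' ^ 2 * P := ⟨Q, h'⟩
    have h5 : IsCoprime (B' ^ 2) (D' ^ 2) := hco.pow
    rw [← pow_two]
    exact h5.dvd_of_dvd_mul_left h4
  have a1 : Associated (D' ^ 2 * P) P := by
    refine (associated_isUnit_mul_left_iff (hD1.pow 2)).2 (Associated.refl _)
  have a2 : Associated (B' ^ 2 * Q) Q := by
    refine (associated_isUnit_mul_left_iff (hB1.pow 2)).2 (Associated.refl _)
  exact a1.symm.trans (h' ▸ a2)

end Pool.Agent.QR
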