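import Mathlib

/-!
# Planes in a three-dimensional space

Elementary facts on two-dimensional subspaces of a three-dimensional vector space.
-/

namespace Pool.Agent.QR

open Module Submodule

variable {k E : Type*} [Field k] [AddCommGroup E] [Module k E]

theorem plane_eq {W : Submodule k E} (hW : finrank k W = 2) {x y : E} (hx : x ∈ W) (hy : y ∈ W)
    (h : LinearIndependent k ![x, y]) : span k {x, y} = W := by
  have hfin : Module.Finite k W := Module.finite_of_finrank_pos (by omega)
  refine Submodule.eq_of_le_of_finrank_eq ?_ ?_
  · rw [span_le]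
    rintro z (rfl | rfl)
    · exact hx
    · exact hy
  · rw [hW]
    have := finrank_span_eq_card h
    rw [Matrix.range_cons_cons_empty] at this
    simpa using this

/-- Elements of a plane in terms of two independent elements. -/
theorem plane_mem {W : Submodule k E} (hW : finrank k W = 2) {x y z : E} (hx : x ∈ W) (hy : y ∈ W)
    (h : LinearIndependent k ![x, y]) (hz : z ∈ W) : ∃ a b : k, a • x + b • y = z := by
  rw [← plane_eq hW hx hy h] at hz
  exact mem_span_pair.1 hz

/-- Two planes in a three-dimensional space meet. -/
theorem meet {V W W' : Submodule k E} (hV : finrank k V = 3) (hWV : W ≤ V) (hWV' : W' ≤ V)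
    (hW : finrank k W = 2) (hW' : finrank k W' = 2) : ∃ x, x ≠ 0 ∧ x ∈ W ∧ x ∈ W' := by
  have hfV : Module.Finite k V := Module.finite_of_finrank_pos (by omega)
  have hf : Module.Finite k W := Module.finite_of_finrank_pos (by omega)
  have hf' : Module.Finite k W' := Module.finite_of_finrank_pos (by omega)
  have h1 := Submodule.finrank_sup_add_finrank_inf_eq W W'
  have h2 : finrank k ↥(W ⊔ W') ≤ 3 := by
    rw [← hV]
    exact Submodule.finrank_mono (sup_le hWV hWV')
  have h3 : 0 < finrank k ↥(W ⊓ W') := by omega
  have h4 : W ⊓ W' ≠ ⊥ := by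
    intro h
    rw [h, finrank_bot] at h3
    exact lt_irrefl _ h3
  obtain ⟨x, hx, hx0⟩ := Submodule.exists_mem_ne_zero_of_ne_bot h4
  exact ⟨x, hx0, (Submodule.mem_inf.1 hx).1, (Submodule.mem_inf.1 hx).2⟩

/-- A nonzero element of a plane is part of a basis. -/
theorem extend {W : Submodule k E} (hW : finrank k W = 2) {x : E} (_hx : x ∈ W) (hx0 : x ≠ 0) :
    ∃ y ∈ W, LinearIndependent k ![x, y] := by
  by_contra hcon
  push Not at hcon
  have hle : W ≤ span k {x} := by
    intro y hy
    by_contra hy'
    refine hcon y hy ((LinearIndependent.pair_iff' hx0).2 fun a ha => hy' ?_)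
    rw [← ha]
    exact Submodule.smul_mem _ _ (Submodule.mem_span_singleton_self x)
  have h1 := Submodule.finrank_mono hle
  rw [hW, finrank_span_singleton hx0] at h1
  omega

/-- Two elements of the intersection of two distinct planes are dependent. -/
theorem inter_dep {W W' : Submodule k E} (hW : finrank k W = 2) (hW' : finrank k W' = 2)
    (hne : W ≠ W') {x y : E} (hx : x ∈ W) (hx' : x ∈ W') (hy : y ∈ W) (hy' : y ∈ W')
    (h : LinearIndependent k ![x, y]) : False :=
  hne ((plane_eq hW hx hy h).symm.trans (plane_eq hW' hx' hy' h))

/-- Independence of three elements. -/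
theorem ind3_of {W : Submodule k E} {x y z : E} (hx : x ∈ W) (hy : y ∈ W)
    (h : LinearIndependent k ![x, y]) (hz : z ∉ W) : LinearIndependent k ![x, y, z] := by
  rw [Fintype.linearIndependent_iff]
  intro g hg
  simp only [Fin.sum_univ_three, Matrix.cons_val_zero, Matrix.cons_val_one, Matrix.cons_val] at hg
  have h2 : g 2 = 0 := by
    by_contra h2
    apply hz
    have : z = (g 2)⁻¹ • (-(g 0 • x + g 1 • y)) := by
      rw [eq_inv_smul_iff₀ h2]
      exact eq_neg_of_add_eq_zero_right hg
    rw [this]
    exact W.smul_mem _ (W.neg_mem (W.add_mem (W.smul_mem _ hx) (W.smul_mem _ hy)))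
  rw [h2, zero_smul, add_zero] at hg
  have := LinearIndependent.pair_iff.1 h _ _ hg
  intro i
  fin_cases i
  · exact this.1
  · exact this.2
  · exact h2

theorem finrank_pair {x y : E} (h : LinearIndependent k ![x, y]) :
    finrank k (span k {x, y}) = 2 := by
  have := finrank_span_eq_card h
  rw [Matrix.range_cons_cons_empty] at this
  simpa using this

/-- Independence of three elements written out. -/
theorem i3_iff {x y z : E} : LinearIndependent k ![x, y, z] ↔
    ∀ a b c : k, a • x + b • y + c • z = 0 → a = 0 ∧ b = 0 ∧ c = 0 := by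
  rw [Fintype.linearIndependent_iff]
  constructor
  · intro h a b c habc
    have := h ![a, b, c] (by simpa [Fin.sum_univ_three] using habc)
    exact ⟨this 0, this 1, this 2⟩
  · intro h g hg
    simp only [Fin.sum_univ_three, Matrix.cons_val_zero, Matrix.cons_val_one,
      Matrix.cons_val] at hg
    obtain ⟨h0, h1, h2⟩ := h _ _ _ hg
    intro i
    fin_cases i
    · exact h0
    · exact h1
    · exact h2

/-- Elements of a three-dimensional space in terms of three independent elements. -/
theorem space_mem {V : Submodule k E} (hV : finrank k V = 3) {x y z w : E} (hx : x ∈ V)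
    (hy : y ∈ V) (hz : z ∈ V) (h : LinearIndependent k ![x, y, z]) (hw : w ∈ V) :
    ∃ a b c : k, a • x + b • y + c • z = w := by
  have hfin : Module.Finite k V := Module.finite_of_finrank_pos (by omega)
  have he : span k {x, y, z} = V := by
    refine Submodule.eq_of_le_of_finrank_eq ?_ ?_
    · rw [span_le]
      rintro z (rfl | rfl | rfl)
      · exact hx
      · exact hy
      · exact hz
    · rw [hV]
      have := finrank_span_eq_card h
      rw [Matrix.range_cons, Matrix.range_cons_cons_empty, Set.singleton_union] at this
      simpa using this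
  rw [← he] at hw
  exact mem_span_triple.1 hw

end Pool.Agent.QR
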