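import Pool.Agent.QR.Final

/-!
# Theorem Q for logarithms, from Baker's theorem
-/

namespace Pool.Agent.QR

open Module Submodule

theorem main (hB : BakerAll) (r : ℕ) (t : Fin r → ℂ) (ht : LinearIndependent ℚ t)
    (he : ∀ i, IsAlgebraic ℚ (Complex.exp (t i)))
    (E : Set (Submodule ℚ ℂ))
    (hE : E = {W | W ≤ span ℚ (Set.range t) ∧ finrank ℚ W = 2 ∧
      ∃ x ∈ W, ∃ y ∈ W, LinearIndependent ℚ ![x, y] ∧
        ∃ P : MvPolynomial (Fin 2) ℂ, P ≠ 0 ∧ P.totalDegree ≤ 2 ∧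
          (∀ m, IsAlgebraic ℚ (P.coeff m)) ∧ MvPolynomial.eval ![x, y] P = 0}) :
    (∀ U ≤ span ℚ (Set.range t), finrank ℚ U = 3 → {W ∈ E | W ≤ U}.encard ≤ 3) ∧
    (∀ x : ℂ, x ≠ 0 → {W ∈ E | x ∈ W}.encard ≤ (r - 1 : ℕ)) := by
  have hE' : E = ExcP (span ℚ (Set.range t)) := hE
  subst hE'
  exact both subQ r t ht (free_log hB he)

end Pool.Agent.QR
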