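import Pool.Agent.QR.CaseA

/-!
# Sums of more than two functions of the three types

If `1, x, Y_i` (`i ∈ ι`) are linearly independent over `K`, all `Y_i` are of one of the three types
and there are at least two of them, then `∑ i, Y_i` satisfies no quadratic relation with `x`.
-/

namespace Pool.Agent.QR

open Polynomial IntermediateField

variable {K L : Type*} [Field K] [Field L] [Algebra K L]

/-- Some automorphism moves an element outside the ground field. -/
theorem exists_move {E M : Type*} [Field E] [Field M] [Algebra E M] [Normal E M] [CharZero E]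
    {z : M} (hz : z ∉ (⊥ : Subalgebra E M)) : ∃ σ : M ≃ₐ[E] M, σ z ≠ z := by
  have hi : IsIntegral E z := Normal.isIntegral inferInstance z
  have hsep : IsSeparable E z := (minpoly.irreducible hi).separable
  obtain ⟨z', hne, hc⟩ := (notMem_iff_exists_ne_and_isConjRoot hsep
    (Normal.splits inferInstance z)).1 hz
  obtain ⟨σ, hσ⟩ := hc.symm.exists_algEquiv
  exact ⟨σ, by rw [hσ]; exact hne.symm⟩

/-- Independence of `1, x, Y_i` written out. -/
def IndN (K : Type*) {L : Type*} [Field K] [Field L] [Algebra K L] {ι : Type*} [Fintype ι]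
    (x : L) (Y : ι → L) : Prop :=
  ∀ (a b : K) (c : ι → K), algebraMap K L a + algebraMap K L b * x +
    ∑ i, algebraMap K L (c i) * Y i = 0 → a = 0 ∧ b = 0 ∧ ∀ i, c i = 0

theorem IndN.transc [IsAlgClosed K] {ι : Type*} [Fintype ι] {x : L} {Y : ι → L}
    (h : IndN K x Y) : Transcendental K x := by
  refine QR.transc fun c hc => ?_
  have := h (-c) 1 (fun _ => 0) (by rw [hc]; simp)
  exact one_ne_zero this.2.1

theorem IndN.ind4 {ι : Type*} [Fintype ι] {x : L} {Y : ι → L} (h : IndN K x Y) {i j : ι}
    (hij : i ≠ j) : Ind4 K x (Y i) (Y j) := by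
  classical
  intro a b c d habc
  have := h a b (fun k => if k = i then c else if k = j then d else 0) (by
    rw [← habc, Fintype.sum_eq_add i j hij]
    · simp only [if_true, if_neg hij.symm]
      ring
    · rintro k ⟨hk1, hk2⟩
      simp [hk1, hk2])
  obtain ⟨h1, h2, h3⟩ := this
  refine ⟨h1, h2, ?_, ?_⟩
  · have := h3 i
    simpa using this
  · have := h3 j
    simpa [hij.symm] using this

/-- Elements of `K(x)` as fractions. -/
theorem frac {x z : L} (hz : z ∈ K⟮x⟯) (hx : Transcendental K x) :
    ∃ a b : K[X], b ≠ 0 ∧ aeval x a + aeval x b * z = 0 := by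
  obtain ⟨r, s, hrs⟩ := (mem_adjoin_simple_iff K z).1 hz
  by_cases hs : s = 0
  · refine ⟨0, 1, one_ne_zero, ?_⟩
    rw [hrs, hs]
    simp
  · refine ⟨-r, s, hs, ?_⟩
    have hs' : aeval x s ≠ 0 := fun h => hs (pol0 hx h)
    rw [hrs, map_neg, mul_div_cancel₀ _ hs']
    ring

theorem aeval_mem (x : L) (P : K[X]) : aeval x P ∈ K⟮x⟯ :=
  algebra_adjoin_le_adjoin K {x} (aeval_mem_adjoin_singleton K x)

/-- A function of type parabola or hyperbola is rational. -/
theorem rat_mem {x Y : L} (hx : Transcendental K x) (h : TP K x Y ∨ TH K x Y) : Y ∈ K⟮x⟯ := by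
  have mx := mem_adjoin_simple_self K x
  rcases h with ⟨α, -, h⟩ | ⟨α, c, -, h⟩
  · rw [h]
    exact mul_mem (IntermediateField.algebraMap_mem _ α) (pow_mem mx 2)
  · have h0 := ne_of_transc hx c
    have : Y = algebraMap K L α / (x - algebraMap K L c) := by
      rw [← h, mul_div_cancel_right₀ _ h0]
    rw [this]
    exact div_mem (IntermediateField.algebraMap_mem _ α)
      (sub_mem mx (IntermediateField.algebraMap_mem _ c))

theorem sq_mem' {x Y : L} (hx : Transcendental K x) (h : Ty K x Y) : Y ^ 2 ∈ K⟮x⟯ := by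
  have mx := mem_adjoin_simple_self K x
  rcases h with h | h | ⟨p, q, r, -, h⟩
  · exact pow_mem (rat_mem hx (Or.inl h)) 2
  · exact pow_mem (rat_mem hx (Or.inr h)) 2
  · rw [h]
    exact add_mem (add_mem (mul_mem (IntermediateField.algebraMap_mem _ p) (pow_mem mx 2))
      (mul_mem (IntermediateField.algebraMap_mem _ q) mx)) (IntermediateField.algebraMap_mem _ r)

/-- The case of a square root among the functions. -/
theorem many_S [IsAlgClosed K] [CharZero K] [IsAlgClosed L] {ι : Type*} [Fintype ι] {x : L}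
    {Y : ι → L} (hi : IndN K x Y) (ht : ∀ i, Ty K x (Y i)) {i₀ j₀ : ι} (hij : i₀ ≠ j₀)
    (hS : TS K x (Y i₀)) (hr : Rel2 K x (∑ i, Y i)) : False := by
  classical
  have hx := hi.transc
  have h20 : (2 : K) ≠ 0 := two_ne_zero
  have hL2 : (2 : L) ≠ 0 := by
    have := amap_ne (L := L) h20
    rwa [map_ofNat] at this
  have mx := mem_adjoin_simple_self K x
  let E := K⟮x⟯
  let M := algebraicClosure K⟮x⟯ L
  have hcE : CharZero K⟮x⟯ := charZero_of_injective_algebraMap (algebraMap K K⟮x⟯).injective
  have hcM : IsAlgClosure K⟮x⟯ M := algebraicClosure.isAlgClosure K⟮x⟯ L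
  have hN : Normal K⟮x⟯ M := IsAlgClosure.normal _ _
  have memM : ∀ {z : L}, z ^ 2 ∈ K⟮x⟯ → z ∈ M := by
    intro z hz
    refine mem_algebraicClosure_iff.2 (IsAlgebraic.of_pow two_pos ?_)
    exact isAlgebraic_algebraMap (⟨z ^ 2, hz⟩ : K⟮x⟯)
  have hYM : ∀ i, Y i ∈ M := fun i => memM (sq_mem' hx (ht i))
  have fixE : ∀ (σ : M ≃ₐ[K⟮x⟯] M) (z : M), (z : L) ∈ K⟮x⟯ → σ z = z := by
    intro σ z hz
    have : z = algebraMap K⟮x⟯ M ⟨z, hz⟩ := Subtype.ext rfl
    rw [this]
    exact σ.commutes _
  have pm : ∀ (σ : M ≃ₐ[K⟮x⟯] M) (z : M), (z : L) ^ 2 ∈ K⟮x⟯ → σ z = z ∨ σ z = -z := by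
    intro σ z hz
    have h1 : σ (z ^ 2) = z ^ 2 := fixE σ (z ^ 2) hz
    rw [map_pow] at h1
    exact sq_eq_sq_iff_eq_or_eq_neg.1 h1
  have notbot : ∀ (z : M), (z : L) ∉ K⟮x⟯ → z ∉ (⊥ : Subalgebra K⟮x⟯ M) := by
    rintro z hz ⟨e, he⟩
    apply hz
    have : (z : L) = e := by rw [← he]; rfl
    rw [this]
    exact e.2
  -- the roots are not rational
  have nS : ∀ i, TS K x (Y i) → Y i ∉ K⟮x⟯ := by
    rintro i ⟨p, q, r, h⟩ hm
    obtain ⟨a, b, hb, hab⟩ := frac hm hx
    exact hb (rt1 hx h hab).2
  let Y' : ι → M := fun i => ⟨Y i, hYM i⟩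
  obtain ⟨σ, a, b, ha, hb⟩ : ∃ (σ : M ≃ₐ[K⟮x⟯] M) (a b : ι), σ (Y' a) ≠ Y' a ∧ σ (Y' b) = Y' b := by
    rcases ht j₀ with h | h | h
    · obtain ⟨σ, hσ⟩ := exists_move (notbot (Y' i₀) (nS i₀ hS))
      exact ⟨σ, i₀, j₀, hσ, fixE σ _ (rat_mem hx (Or.inl h))⟩
    · obtain ⟨σ, hσ⟩ := exists_move (notbot (Y' i₀) (nS i₀ hS))
      exact ⟨σ, i₀, j₀, hσ, fixE σ _ (rat_mem hx (Or.inr h))⟩
    · have hprod : Y i₀ * Y j₀ ∉ K⟮x⟯ := by
        intro hm
        obtain ⟨a, b, hb, hab⟩ := frac hm hx
        obtain ⟨p, q, r, h1⟩ := hS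
        obtain ⟨p', q', r', h2⟩ := h
        have h3 := rt2 (P := a) (Q := 0) (R := 0) (S := b) hx h20 h1 h2 (fun c hc => by
          have := hi.ind4 hij 0 0 (-c) 1 (by
            simp only [map_zero, map_neg, map_one]; rw [hc]; ring)
          exact one_ne_zero this.2.2.2) (by
          rw [map_zero]; linear_combination hab)
        exact hb h3.2.2.2
      obtain ⟨σ, hσ⟩ := exists_move (notbot (Y' i₀ * Y' j₀) hprod)
      rw [map_mul] at hσ
      rcases pm σ (Y' i₀) (sq_mem' hx (ht i₀)) with h1 | h1 <;>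
        rcases pm σ (Y' j₀) (sq_mem' hx (ht j₀)) with h2 | h2
      · exact absurd (by rw [h1, h2]) hσ
      · refine ⟨σ, j₀, i₀, ?_, h1⟩
        intro h3
        exact hσ (by rw [h1, h3])
      · refine ⟨σ, i₀, j₀, ?_, h2⟩
        intro h3
        exact hσ (by rw [h2, h3])
      · exact absurd (by rw [h1, h2]; ring) hσ
  -- signs
  have hsg : ∀ i, ∃ e : K, (e = 1 ∨ e = -1) ∧ ((σ (Y' i) : M) : L) = algebraMap K L e * Y i := by
    intro i
    rcases pm σ (Y' i) (sq_mem' hx (ht i)) with h | h
    · exact ⟨1, Or.inl rfl, by rw [h, map_one, one_mul]⟩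
    · exact ⟨-1, Or.inr rfl, by rw [h, map_neg, map_one, neg_one_mul]; rfl⟩
  choose e he1 he2 using hsg
  have ea : e a ≠ 1 := by
    intro h
    apply ha
    apply Subtype.ext
    rw [he2 a, h, map_one, one_mul]
  have eb : e b ≠ -1 := by
    intro h
    have h1 := he2 b
    rw [hb, h, map_neg, map_one, neg_one_mul] at h1
    have h2 : Y b = -Y b := h1
    have h3 : Y b = 0 := by
      have : (2 : L) * Y b = 0 := by linear_combination h2
      exact (mul_eq_zero.1 this).resolve_left hL2
    have := hi 0 0 (fun k => if k = b then 1 else 0) (by simp [h3])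
    have := this.2.2 b
    simp at this
  obtain ⟨A, B, C', D, F, G, h0, hrel⟩ := hr
  set y := ∑ i, Y i with hy
  -- the two possible shapes
  have key : ∀ (u v : K), ((algebraMap K L u * x + algebraMap K L v) + y) ^ 2 ∈ K⟮x⟯ → False := by
    intro u v hz
    set l := algebraMap K L u * x + algebraMap K L v with hl
    have ml : l ∈ K⟮x⟯ := add_mem (mul_mem (IntermediateField.algebraMap_mem _ u) mx)
      (IntermediateField.algebraMap_mem _ v)
    let l' : M := ⟨l, memM (pow_mem ml 2)⟩
    have hZ : ((l' + ∑ i, Y' i : M) : L) = l + y := by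
      rw [hy]
      push_cast
      rfl
    have hσZ : ((σ (l' + ∑ i, Y' i) : M) : L) = l + ∑ i, algebraMap K L (e i) * Y i := by
      rw [map_add, fixE σ l' ml, map_sum]
      push_cast
      congr 1
      exact Finset.sum_congr rfl fun i _ => he2 i
    rcases pm σ (l' + ∑ i, Y' i) (by rw [hZ]; exact hz) with h | h
    · have h1 : l + ∑ i, algebraMap K L (e i) * Y i = l + y := by rw [← hσZ, h, hZ]
      have h2 := hi 0 0 (fun i => e i - 1) (by
        simp only [map_zero, zero_mul, zero_add, map_sub, map_one, sub_mul, one_mul,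
          Finset.sum_sub_distrib]
        linear_combination h1)
      exact ea (sub_eq_zero.1 (h2.2.2 a))
    · have h1 : l + ∑ i, algebraMap K L (e i) * Y i = -(l + y) := by
        rw [← hσZ, h, ← hZ]
        rfl
      have h2 := hi (2 * v) (2 * u) (fun i => e i + 1) (by
        simp only [map_add, map_mul, map_one, add_mul, one_mul, map_ofNat,
          Finset.sum_add_distrib]
        rw [hl] at h1
        linear_combination h1)
      exact eb (eq_neg_of_add_eq_zero_left (h2.2.2 b))
  by_cases hA : A = 0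
  · subst hA
    have h1 : (algebraMap K L B * x + algebraMap K L D) * y =
        -(algebraMap K L C' * x ^ 2 + algebraMap K L F * x + algebraMap K L G) := by
      simp only [map_zero] at hrel
      linear_combination hrel
    by_cases hBD : B = 0 ∧ D = 0
    · obtain ⟨rfl, rfl⟩ := hBD
      have h4 := coef6 hx G F C' 0 0 0 0 (by
        simp only [map_zero] at h1 ⊢
        linear_combination h1)
      exact h0 ⟨rfl, rfl, h4.2.2.1, rfl, h4.2.1, h4.1⟩
    · have h2 : algebraMap K L B * x + algebraMap K L D ≠ 0 := by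
        intro h3
        have h4 := coef6 hx D B 0 0 0 0 0 (by simp only [map_zero]; linear_combination h3)
        exact hBD ⟨h4.2.1, h4.1⟩
      have h3 : y ∈ K⟮x⟯ := by
        have : y = -(algebraMap K L C' * x ^ 2 + algebraMap K L F * x + algebraMap K L G) /
            (algebraMap K L B * x + algebraMap K L D) := by
          rw [← h1, mul_div_cancel_left₀ _ h2]
        rw [this]
        exact div_mem (neg_mem (add_mem (add_mem (mul_mem (IntermediateField.algebraMap_mem _ C')
          (pow_mem mx 2)) (mul_mem (IntermediateField.algebraMap_mem _ F) mx))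
          (IntermediateField.algebraMap_mem _ G)))
          (add_mem (mul_mem (IntermediateField.algebraMap_mem _ B) mx)
          (IntermediateField.algebraMap_mem _ D))
      -- `y` rational: some sign is wrong
      have hZ : ((∑ i, Y' i : M) : L) = y := by
        rw [hy]; push_cast; rfl
      have h5 := fixE σ (∑ i, Y' i) (by rw [hZ]; exact h3)
      have h6 : ∑ i, algebraMap K L (e i) * Y i = y := by
        rw [← hZ, ← h5, map_sum]
        push_cast
        exact (Finset.sum_congr rfl fun i _ => he2 i).symm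
      have h2 := hi 0 0 (fun i => e i - 1) (by
        simp only [map_zero, zero_mul, zero_add, map_sub, map_one, sub_mul, one_mul,
          Finset.sum_sub_distrib]
        linear_combination h6)
      exact ea (sub_eq_zero.1 (h2.2.2 a))
  · have hA' := amap_ne (L := L) hA
    have hA2 : (2 * A : K) ≠ 0 := mul_ne_zero h20 hA
    have hA2' := amap_ne (L := L) hA2
    apply key (B / (2 * A)) (D / (2 * A))
    have h1 : ((algebraMap K L (B / (2 * A)) * x + algebraMap K L (D / (2 * A))) + y) ^ 2 =
        ((algebraMap K L (B / (2 * A)) * x + algebraMap K L (D / (2 * A))) ^ 2) -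
        (algebraMap K L C' * x ^ 2 + algebraMap K L F * x + algebraMap K L G) /
          algebraMap K L A := by
      have hu : 2 * algebraMap K L A * algebraMap K L (B / (2 * A)) = algebraMap K L B := by
        have : 2 * A * (B / (2 * A)) = B := mul_div_cancel₀ _ hA2
        have := congrArg (algebraMap K L) this
        rwa [map_mul, map_mul, map_ofNat] at this
      have hv : 2 * algebraMap K L A * algebraMap K L (D / (2 * A)) = algebraMap K L D := by
        have : 2 * A * (D / (2 * A)) = D := mul_div_cancel₀ _ hA2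
        have := congrArg (algebraMap K L) this
        rwa [map_mul, map_mul, map_ofNat] at this
      have hq := mul_div_cancel₀ (algebraMap K L C' * x ^ 2 + algebraMap K L F * x +
        algebraMap K L G) hA'
      rw [← sub_eq_zero]
      refine (mul_eq_zero.1 (?_ : algebraMap K L A * _ = 0)).resolve_left hA'
      linear_combination hrel + x * y * hu + y * hv + hq
    rw [h1]
    exact sub_mem (pow_mem (add_mem (mul_mem (IntermediateField.algebraMap_mem _ _) mx)
      (IntermediateField.algebraMap_mem _ _)) 2)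
      (div_mem (add_mem (add_mem (mul_mem (IntermediateField.algebraMap_mem _ C')
          (pow_mem mx 2)) (mul_mem (IntermediateField.algebraMap_mem _ F) mx))
          (IntermediateField.algebraMap_mem _ G)) (IntermediateField.algebraMap_mem _ A))

/-- Regular at `e`. -/
def Reg (x : L) (e : K) (R : L) : Prop :=
  ∃ a b : K[X], b.eval e ≠ 0 ∧ R * aeval x b = aeval x a

theorem Reg.add {x : L} {e : K} {R S : L} (hR : Reg x e R) (hS : Reg x e S) :
    Reg x e (R + S) := by
  obtain ⟨a, b, hb, h⟩ := hR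
  obtain ⟨c, d, hd, h'⟩ := hS
  refine ⟨a * d + b * c, b * d, ?_, ?_⟩
  · rw [eval_mul]; exact mul_ne_zero hb hd
  · simp only [map_add, map_mul]
    rw [← h, ← h']
    ring

theorem Reg.sum {x : L} {e : K} {ι : Type*} (s : Finset ι) {R : ι → L}
    (hR : ∀ i ∈ s, Reg x e (R i)) : Reg x e (∑ i ∈ s, R i) := by
  classical
  induction s using Finset.induction_on with
  | empty => exact ⟨0, 1, by simp, by simp⟩
  | insert i s hi ih =>
    rw [Finset.sum_insert hi]
    exact (hR i (Finset.mem_insert_self i s)).add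
      (ih fun j hj => hR j (Finset.mem_insert_of_mem hj))

theorem reg_P {x : L} (e : K) {Y : L} (h : TP K x Y) : Reg x e Y := by
  obtain ⟨α, -, h⟩ := h
  exact ⟨C α * X ^ 2, 1, by simp, by rw [h]; simp⟩

theorem reg_H {x : L} {e c : K} (hec : e ≠ c) {Y : L} {α : K}
    (h : Y * (x - algebraMap K L c) = algebraMap K L α) : Reg x e Y := by
  refine ⟨C α, X - C c, ?_, ?_⟩
  · simpa using sub_ne_zero.2 hec
  · simpa using h

/-- The relation at a pole. -/
theorem pole {x : L} (hx : Transcendental K x) {Y R : L} {e α : K} (hα : α ≠ 0)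
    (hY : Y * (x - algebraMap K L e) = algebraMap K L α) (hR : Reg x e R) {A B C' D F G : K}
    (h : algebraMap K L A * (Y + R) ^ 2 + algebraMap K L B * (x * (Y + R)) +
      algebraMap K L C' * x ^ 2 + algebraMap K L D * (Y + R) + algebraMap K L F * x +
      algebraMap K L G = 0) : A = 0 ∧ B * e + D = 0 := by
  obtain ⟨a, b, hb, hR⟩ := hR
  set n : K[X] := C α * b + (X - C e) * a with hn
  have hn' : aeval x n = (Y + R) * (aeval x b * (x - algebraMap K L e)) := by
    simp only [hn, map_add, map_mul, map_sub, aeval_C, aeval_X]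
    rw [← hY, ← hR]
    ring
  have hne : n.eval e = α * b.eval e := by simp [hn]
  have hne0 : n.eval e ≠ 0 := by rw [hne]; exact mul_ne_zero hα hb
  have h1 := ev0 hx (P := C A * n ^ 2 + (C B * X + C D) * n * (b * (X - C e)) +
    (C C' * X ^ 2 + C F * X + C G) * (b * (X - C e)) ^ 2) (by
      simp only [map_add, map_mul, map_pow, map_sub, aeval_C, aeval_X]
      rw [hn']
      linear_combination (aeval x b * (x - algebraMap K L e)) ^ 2 * h) e
  simp only [eval_add, eval_mul, eval_pow, eval_sub, eval_C, eval_X, sub_self, mul_zero,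
      add_zero, ne_eq, OfNat.ofNat_ne_zero, not_false_eq_true, zero_pow] at h1
  have hA : A = 0 := (mul_eq_zero.1 h1).resolve_right (pow_ne_zero 2 hne0)
  subst hA
  have h2 := ev0 hx (P := (C B * X + C D) * n +
    (C C' * X ^ 2 + C F * X + C G) * (b * (X - C e))) (by
      simp only [map_add, map_mul, map_pow, map_sub, aeval_C, aeval_X]
      rw [hn']
      simp only [map_zero] at h
      linear_combination (aeval x b * (x - algebraMap K L e)) * h) e
  simp only [eval_add, eval_mul, eval_sub, eval_C, eval_X, sub_self, mul_zero,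
      add_zero] at h2
  exact ⟨rfl, (mul_eq_zero.1 h2).resolve_right hne0⟩

/-- Two functions of type hyperbola have different poles. -/
theorem poles_ne {x Y₁ Y₂ : L} (hi : Ind4 K x Y₁ Y₂) (hx : Transcendental K x) {α β c c' : K}
    (hβ : β ≠ 0) (h₁ : Y₁ * (x - algebraMap K L c) = algebraMap K L α)
    (h₂ : Y₂ * (x - algebraMap K L c') = algebraMap K L β) : c ≠ c' := by
  rintro rfl
  have h3 : algebraMap K L β * Y₁ - algebraMap K L α * Y₂ = 0 := by
    apply (mul_eq_zero.1 (?_ : (algebraMap K L β * Y₁ - algebraMap K L α * Y₂) *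
      (x - algebraMap K L c) = 0)).resolve_right (ne_of_transc hx c)
    linear_combination algebraMap K L β * h₁ - algebraMap K L α * h₂
  have := hi 0 0 β (-α) (by simp only [map_zero, map_neg]; linear_combination h3)
  exact hβ this.2.2.1

/-- **The sum of at least two functions of the three types satisfies no quadratic relation
with `x`.** -/
theorem many [IsAlgClosed K] [CharZero K] [IsAlgClosed L] {ι : Type*} [Fintype ι] {x : L}
    {Y : ι → L} (hi : IndN K x Y) (ht : ∀ i, Ty K x (Y i)) {i₀ j₀ : ι} (hij : i₀ ≠ j₀)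
    (hr : Rel2 K x (∑ i, Y i)) : False := by
  classical
  have hx := hi.transc
  by_cases hS : ∃ i, TS K x (Y i)
  · obtain ⟨i, hS⟩ := hS
    by_cases hii : i = i₀
    · subst hii
      exact many_S hi ht hij hS hr
    · exact many_S hi ht hii hS hr
  push Not at hS
  have htt : ∀ i, TP K x (Y i) ∨ TH K x (Y i) := by
    intro i
    rcases ht i with h | h | h
    · exact Or.inl h
    · exact Or.inr h
    · exact absurd h (hS i)
  have hPP : ∀ i j, i ≠ j → TP K x (Y i) → TP K x (Y j) → False :=
    fun i j hne h1 h2 => a_PP (hi.ind4 hne) h1 h2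
  by_cases hH : ∃ i j, i ≠ j ∧ TH K x (Y i) ∧ TH K x (Y j)
  · obtain ⟨i, j, hne, ⟨α, c, hα, h1⟩, ⟨β, c', hβ, h2⟩⟩ := hH
    have hcc := poles_ne (hi.ind4 hne) hx hβ h1 h2
    obtain ⟨A, B, C', D, F, G, h0, h⟩ := hr
    have hreg : ∀ (i : ι) (α c : K), α ≠ 0 → Y i * (x - algebraMap K L c) = algebraMap K L α →
        Reg x c (∑ k ∈ Finset.univ.erase i, Y k) := by
      intro i α c hα h1
      refine Reg.sum _ fun k hk => ?_
      have hki : k ≠ i := (Finset.mem_erase.1 hk).1
      rcases htt k with h | ⟨γ, c'', hγ, h⟩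
      · exact reg_P c h
      · exact reg_H (poles_ne (hi.ind4 hki) hx hα h h1).symm h
    have e1 : ∑ k, Y k = Y i + ∑ k ∈ Finset.univ.erase i, Y k :=
      (Finset.add_sum_erase _ _ (Finset.mem_univ i)).symm
    have e2 : ∑ k, Y k = Y j + ∑ k ∈ Finset.univ.erase j, Y k :=
      (Finset.add_sum_erase _ _ (Finset.mem_univ j)).symm
    have k1 := pole hx hα h1 (hreg i α c hα h1) (by rw [← e1]; exact h)
    have k2 := pole hx hβ h2 (hreg j β c' hβ h2) (by rw [← e2]; exact h)
    obtain ⟨hA, k1⟩ := k1
    obtain ⟨-, k2⟩ := k2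
    have hB : B = 0 := by
      have : B * (c - c') = 0 := by linear_combination k1 - k2
      exact (mul_eq_zero.1 this).resolve_right (sub_ne_zero.2 hcc)
    have hD : D = 0 := by linear_combination k1 - c * hB
    subst hA hB hD
    have h4 := coef6 hx G F C' 0 0 0 0 (by
      simp only [map_zero] at h ⊢
      linear_combination h)
    exact h0 ⟨rfl, rfl, h4.2.2.1, rfl, h4.2.1, h4.1⟩
  · push Not at hH
    have hpair : ∀ i j, i ≠ j → TP K x (Y i) → TH K x (Y j) → False := by
      intro i j hne h1 h2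
      refine a_PH (hi.ind4 hne) h1 h2 ?_
      rwa [← Fintype.sum_eq_add i j hne]
      rintro k ⟨hk1, hk2⟩
      exfalso
      rcases htt k with h | h
      · exact hPP k i hk1 h h1
      · exact hH k j hk2 h h2
    rcases htt i₀ with h | h <;> rcases htt j₀ with h' | h'
    · exact hPP i₀ j₀ hij h h'
    · exact hpair i₀ j₀ hij h h'
    · exact hpair j₀ i₀ hij.symm h' h
    · exact hH i₀ j₀ hij h h'

end Pool.Agent.QR
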