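import Pool.Agent.QR.Basic

/-!
# Independence of square roots of squarefree quadratic polynomials over `K(x)`
-/

namespace Pool.Agent.QR

open Polynomial

variable {K L : Type*} [Field K] [Field L] [Algebra K L]

/-- `w² = p x² + q x + r` with non-zero discriminant. -/
def Rt (x w : L) (p q r : K) : Prop :=
  q ^ 2 - 4 * p * r ≠ 0 ∧
    w ^ 2 = algebraMap K L p * x ^ 2 + algebraMap K L q * x + algebraMap K L r

theorem rt1 {x w : L} {p q r : K} (hx : Transcendental K x) (hw : Rt x w p q r) {P Q : K[X]}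
    (h : aeval x P + aeval x Q * w = 0) : P = 0 ∧ Q = 0 := by
  have hw2 : w ^ 2 = aeval x (qd p q r) := by rw [qd_aeval]; exact hw.2
  have hPQ : P ^ 2 = Q ^ 2 * qd p q r := by
    have h0 : aeval x (P ^ 2 - Q ^ 2 * qd p q r) = 0 := by
      simp only [map_sub, map_mul, map_pow]
      rw [← hw2]
      linear_combination (aeval x P - aeval x Q * w) * h
    exact sub_eq_zero.1 (pol0 hx h0)
  have hQ : Q = 0 := by
    by_contra hQ
    have h1 : P ^ 2 * 1 = Q ^ 2 * qd p q r := by rw [mul_one]; exact hPQ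
    have h2 := assoc_of_sq (P := 1) (Q := qd p q r) (B := Q) (D := P) squarefree_one
      (qd_squarefree p q r hw.1) (fun h => hQ h.1) h1
    exact qd_not_unit p q r hw.1 (h2.isUnit isUnit_one)
  refine ⟨?_, hQ⟩
  rw [hQ] at hPQ
  have : P ^ 2 = 0 := by rw [hPQ]; ring
  exact pow_eq_zero_iff two_ne_zero |>.1 this

/-- Two roots: `D w₂ = B w₁` forces `w₁, w₂` to be proportional. -/
theorem rt_prop [IsAlgClosed K] {x w₁ w₂ : L} {p₁ q₁ r₁ p₂ q₂ r₂ : K} (hx : Transcendental K x)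
    (h₁ : Rt x w₁ p₁ q₁ r₁) (h₂ : Rt x w₂ p₂ q₂ r₂) {B D : K[X]} (hBD : ¬ (B = 0 ∧ D = 0))
    (h : aeval x D * w₂ = aeval x B * w₁) :
    ∃ c : K, c ≠ 0 ∧ w₂ = algebraMap K L c * w₁ := by
  have hw1 : w₁ ^ 2 = aeval x (qd p₁ q₁ r₁) := by rw [qd_aeval]; exact h₁.2
  have hw2 : w₂ ^ 2 = aeval x (qd p₂ q₂ r₂) := by rw [qd_aeval]; exact h₂.2
  have he : D ^ 2 * qd p₂ q₂ r₂ = B ^ 2 * qd p₁ q₁ r₁ := by
    have h0 : aeval x (D ^ 2 * qd p₂ q₂ r₂ - B ^ 2 * qd p₁ q₁ r₁) = 0 := by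
      simp only [map_sub, map_mul, map_pow]
      rw [← hw1, ← hw2]
      linear_combination (aeval x D * w₂ + aeval x B * w₁) * h
    exact sub_eq_zero.1 (pol0 hx h0)
  have ha := assoc_of_sq (qd_squarefree p₂ q₂ r₂ h₂.1) (qd_squarefree p₁ q₁ r₁ h₁.1) hBD he
  obtain ⟨u, hu⟩ := ha.symm
  obtain ⟨c, hc, hcu⟩ := Polynomial.isUnit_iff.1 u.isUnit
  have hc0 : c ≠ 0 := hc.ne_zero
  obtain ⟨s, hs⟩ := IsAlgClosed.exists_pow_nat_eq c (n := 2) (by norm_num)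
  have hs0 : s ≠ 0 := by
    rintro rfl
    apply hc0
    rw [← hs]; ring
  have hsq : w₂ ^ 2 = (algebraMap K L s * w₁) ^ 2 := by
    rw [hw2, ← hu, ← hcu, map_mul, ← hw1, aeval_C, mul_pow, ← map_pow, hs]
    ring
  rcases sq_eq_sq_iff_eq_or_eq_neg.1 hsq with h3 | h3
  · exact ⟨s, hs0, h3⟩
  · exact ⟨-s, neg_ne_zero.2 hs0, by rw [h3, map_neg]; ring⟩

/-- Four-term independence. -/
theorem rt2 [IsAlgClosed K] {x w₁ w₂ : L} {p₁ q₁ r₁ p₂ q₂ r₂ : K} (hx : Transcendental K x)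
    (h2 : (2 : K) ≠ 0)
    (h₁ : Rt x w₁ p₁ q₁ r₁) (h₂ : Rt x w₂ p₂ q₂ r₂)
    (hn : ∀ c : K, w₂ ≠ algebraMap K L c * w₁) {P Q R S : K[X]}
    (h : aeval x P + aeval x Q * w₁ + aeval x R * w₂ + aeval x S * (w₁ * w₂) = 0) :
    P = 0 ∧ Q = 0 ∧ R = 0 ∧ S = 0 := by
  have hw1 : w₁ ^ 2 = aeval x (qd p₁ q₁ r₁) := by rw [qd_aeval]; exact h₁.2
  have hw2 : w₂ ^ 2 = aeval x (qd p₂ q₂ r₂) := by rw [qd_aeval]; exact h₂.2
  -- multiply by the conjugate of `R + S w₁`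
  have hN : aeval x (R ^ 2 - S ^ 2 * qd p₁ q₁ r₁) * w₂ =
      aeval x (-(P * R) + Q * S * qd p₁ q₁ r₁) + aeval x (P * S - Q * R) * w₁ := by
    simp only [map_sub, map_mul, map_pow, map_add, map_neg]
    rw [← hw1]
    linear_combination (aeval x R - aeval x S * w₁) * h
  set N := R ^ 2 - S ^ 2 * qd p₁ q₁ r₁ with hNdef
  set A := -(P * R) + Q * S * qd p₁ q₁ r₁ with hA
  set B := P * S - Q * R with hB
  have hRS : R = 0 ∧ S = 0 := by
    by_contra hRS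
    have hN0 : N ≠ 0 := by
      intro h0
      have h4 : R ^ 2 * 1 = S ^ 2 * qd p₁ q₁ r₁ := by
        rw [mul_one]; exact sub_eq_zero.1 h0
      have h5 := assoc_of_sq (P := 1) (Q := qd p₁ q₁ r₁) (B := S) (D := R) squarefree_one
        (qd_squarefree p₁ q₁ r₁ h₁.1) (fun h => hRS ⟨h.2, h.1⟩) h4
      exact qd_not_unit p₁ q₁ r₁ h₁.1 (h5.isUnit isUnit_one)
    have hsq : aeval x (N ^ 2 * qd p₂ q₂ r₂ - (A ^ 2 + B ^ 2 * qd p₁ q₁ r₁)) +
        aeval x (-(2 * (A * B))) * w₁ = 0 := by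
      simp only [map_sub, map_mul, map_pow, map_add, map_neg, map_ofNat]
      rw [← hw1, ← hw2]
      linear_combination (aeval x N * w₂ + (aeval x A + aeval x B * w₁)) * hN
    obtain ⟨-, h6⟩ := rt1 hx h₁ hsq
    have h7 : A * B = 0 := by
      have h8 : (C (2 : K) : K[X]) * (A * B) = 0 := by
        have : (C (2 : K) : K[X]) = 2 := map_ofNat C 2
        rw [this]
        exact neg_eq_zero.1 h6
      rcases mul_eq_zero.1 h8 with h9 | h9
      · exact absurd (C_eq_zero.1 h9) h2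
      · exact h9
    rcases mul_eq_zero.1 h7 with hA0 | hB0
    · rw [hA0] at hN
      have h9 : aeval x N * w₂ = aeval x B * w₁ := by rw [hN]; simp
      obtain ⟨c, -, hc⟩ := rt_prop hx h₁ h₂ (fun h => hN0 h.2) h9
      exact hn c hc
    · rw [hB0] at hN
      have h9 : aeval x (-A) + aeval x N * w₂ = 0 := by rw [hN]; simp
      exact hN0 (rt1 hx h₂ h9).2
  obtain ⟨hR, hS⟩ := hRS
  have h10 : aeval x P + aeval x Q * w₁ = 0 := by
    rw [hR, hS] at h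
    simpa using h
  obtain ⟨hP, hQ⟩ := rt1 hx h₁ h10
  exact ⟨hP, hQ, hR, hS⟩

end Pool.Agent.QR
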