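import Pool.Agent.QR.Root

/-!
# The three types of quadratic relations
-/

namespace Pool.Agent.QR

open Polynomial

variable {K L : Type*} [Field K] [Field L] [Algebra K L]

/-- Parabola. -/
def TP (K : Type*) {L : Type*} [Field K] [Field L] [Algebra K L] (x Y : L) : Prop :=
  ∃ α : K, α ≠ 0 ∧ Y = algebraMap K L α * x ^ 2

/-- Hyperbola with a vertical asymptote. -/
def TH (K : Type*) {L : Type*} [Field K] [Field L] [Algebra K L] (x Y : L) : Prop :=
  ∃ α c : K, α ≠ 0 ∧ Y * (x - algebraMap K L c) = algebraMap K L α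

/-- Square root. -/
def TS (K : Type*) {L : Type*} [Field K] [Field L] [Algebra K L] (x Y : L) : Prop :=
  ∃ p q r : K, Rt x Y p q r

/-- One of the three types. -/
def Ty (K : Type*) {L : Type*} [Field K] [Field L] [Algebra K L] (x Y : L) : Prop :=
  TP K x Y ∨ TH K x Y ∨ TS K x Y

theorem ne_of_transc {x : L} (hx : Transcendental K x) (c : K) : x - algebraMap K L c ≠ 0 := by
  intro h
  have := pol0 hx (P := X - C c) (by simpa using h)
  exact X_sub_C_ne_zero c this

theorem TP.smul {x Y : L} (h : TP K x Y) {a : K} (ha : a ≠ 0) : TP K x (algebraMap K L a * Y) := by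
  obtain ⟨α, hα, h⟩ := h
  exact ⟨a * α, mul_ne_zero ha hα, by rw [h, map_mul]; ring⟩

theorem TH.smul {x Y : L} (h : TH K x Y) {a : K} (ha : a ≠ 0) : TH K x (algebraMap K L a * Y) := by
  obtain ⟨α, c, hα, h⟩ := h
  exact ⟨a * α, c, mul_ne_zero ha hα, by rw [map_mul, ← h]; ring⟩

theorem TS.smul {x Y : L} (h : TS K x Y) {a : K} (ha : a ≠ 0) : TS K x (algebraMap K L a * Y) := by
  obtain ⟨p, q, r, hd, h⟩ := h
  refine ⟨a ^ 2 * p, a ^ 2 * q, a ^ 2 * r, ?_, ?_⟩
  · have : (a ^ 2 * q) ^ 2 - 4 * (a ^ 2 * p) * (a ^ 2 * r) = a ^ 4 * (q ^ 2 - 4 * p * r) := by ring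
    rw [this]
    exact mul_ne_zero (pow_ne_zero 4 ha) hd
  · rw [mul_pow, h]
    simp only [map_mul, map_pow]
    ring

theorem Ty.smul {x Y : L} (h : Ty K x Y) {a : K} (ha : a ≠ 0) : Ty K x (algebraMap K L a * Y) := by
  rcases h with h | h | h
  · exact Or.inl (h.smul ha)
  · exact Or.inr (Or.inl (h.smul ha))
  · exact Or.inr (Or.inr (h.smul ha))

/-- Symmetry. -/
theorem Rel2.symm {u v : L} (h : Rel2 K u v) : Rel2 K v u := by
  obtain ⟨A, B, C, D, E, F, h0, h⟩ := h
  refine ⟨C, B, A, E, D, F, fun hh => h0 ⟨hh.2.2.1, hh.2.1, hh.1, hh.2.2.2.2.1, hh.2.2.2.1,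
    hh.2.2.2.2.2⟩, ?_⟩
  linear_combination h

/-- Affine change of the second entry: `v` may be replaced by `v + b u + e`. -/
theorem Rel2.shift {u v : L} (h : Rel2 K u v) (b e : K) :
    Rel2 K u (v + algebraMap K L b * u + algebraMap K L e) := by
  obtain ⟨A, B, C, D, E, F, h0, h⟩ := h
  -- substitute v = V - b u - e
  refine ⟨A, B - 2 * A * b, C - B * b + A * b ^ 2, D - 2 * A * e, E - B * e - D * b + 2 * A * b * e,
    F - D * e + A * e ^ 2, ?_, ?_⟩
  · rintro ⟨hA, hB, hC, hD, hE, hF⟩
    subst hA
    have hB' : B = 0 := by simpa using hB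
    subst hB'
    have hD' : D = 0 := by simpa using hD
    subst hD'
    apply h0
    refine ⟨rfl, rfl, by simpa using hC, rfl, by simpa using hE, by simpa using hF⟩
  · simp only [map_sub, map_add, map_mul, map_pow, map_ofNat]
    linear_combination h

/-- Scaling of the second entry. -/
theorem Rel2.scale {u v : L} (h : Rel2 K u v) {a : K} (ha : a ≠ 0) :
    Rel2 K u (algebraMap K L a * v) := by
  obtain ⟨A, B, C, D, E, F, h0, h⟩ := h
  have ha' : algebraMap K L a ≠ 0 := by
    rw [Ne, FaithfulSMul.algebraMap_eq_zero_iff]; exact ha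
  refine ⟨A, B * a, C * a ^ 2, D * a, E * a ^ 2, F * a ^ 2, ?_, ?_⟩
  · rintro ⟨hA, hB, hC, hD, hE, hF⟩
    have ha2 : a ^ 2 ≠ 0 := pow_ne_zero 2 ha
    exact h0 ⟨hA, (mul_eq_zero.1 hB).resolve_right ha, (mul_eq_zero.1 hC).resolve_right ha2,
      (mul_eq_zero.1 hD).resolve_right ha, (mul_eq_zero.1 hE).resolve_right ha2,
      (mul_eq_zero.1 hF).resolve_right ha2⟩
  · simp only [map_mul, map_pow]
    linear_combination (algebraMap K L a) ^ 2 * h

/-- Normal form of a quadratic relation. -/
theorem normal_form [IsAlgClosed K] [CharZero K] {x y : L}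
    (hi : ∀ a b c : K, algebraMap K L a + algebraMap K L b * x + algebraMap K L c * y = 0 →
      a = 0 ∧ b = 0 ∧ c = 0) (h : Rel2 K x y) :
    ∃ b e : K, Ty K x (y + algebraMap K L b * x + algebraMap K L e) := by
  have hx : Transcendental K x := by
    refine transc fun c hc => ?_
    have := hi (-c) 1 0 (by rw [hc]; simp)
    exact one_ne_zero this.2.1
  obtain ⟨A, B, C, D, E, F, h0, h⟩ := h
  by_cases hA : A = 0
  · subst hA
    by_cases hB : B = 0
    · subst hB
      have hD : D ≠ 0 := by
        rintro rfl
        have h1 := coef6 hx F E C 0 0 0 0 (by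
          simp only [map_zero]
          simp only [map_zero] at h
          linear_combination h)
        exact h0 ⟨rfl, rfl, h1.2.2.1, rfl, h1.2.1, h1.1⟩
      have hD' : algebraMap K L D ≠ 0 := by
        rw [Ne, FaithfulSMul.algebraMap_eq_zero_iff]; exact hD
      refine ⟨E / D, F / D, Or.inl ⟨-(C / D), ?_, ?_⟩⟩
      · intro hC
        have hC' : C = 0 := by
          rcases div_eq_zero_iff.1 (neg_eq_zero.1 hC) with h | h
          · exact h
          · exact absurd h hD
        subst hC'
        have := hi F E D (by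
          simp only [map_zero] at h
          linear_combination h)
        exact hD this.2.2
      · simp only [map_neg, map_div₀]
        field_simp
        simp only [map_zero] at h
        linear_combination h
    · have hB' : algebraMap K L B ≠ 0 := by
        rw [Ne, FaithfulSMul.algebraMap_eq_zero_iff]; exact hB
      set c : K := -(D / B) with hc
      have hcB : algebraMap K L B * algebraMap K L c = - algebraMap K L D := by
        rw [← map_mul, hc, ← map_neg]
        congr 1
        field_simp
      set ρ : K := F + E * c + C * c ^ 2 with hρ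
      have hkey : (y + algebraMap K L (C / B) * x + algebraMap K L ((E + C * c) / B)) *
          (x - algebraMap K L c) = algebraMap K L (-(ρ / B)) := by
        have h1 : algebraMap K L B * ((y + algebraMap K L (C / B) * x +
            algebraMap K L ((E + C * c) / B)) * (x - algebraMap K L c)) =
            algebraMap K L B * algebraMap K L (-(ρ / B)) := by
          simp only [map_neg, map_div₀, map_add, map_mul, hρ, map_pow]
          field_simp
          simp only [map_zero] at h
          linear_combination h - y * hcB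
        exact mul_left_cancel₀ hB' h1
      refine ⟨C / B, (E + C * c) / B, Or.inr (Or.inl ⟨-(ρ / B), c, ?_, hkey⟩)⟩
      intro hρ0
      rw [hρ0, map_zero] at hkey
      rcases mul_eq_zero.1 hkey with h2 | h2
      · have := hi ((E + C * c) / B) (C / B) 1 (by rw [map_one]; linear_combination h2)
        exact one_ne_zero this.2.2
      · exact ne_of_transc hx c h2
  · have hA' : algebraMap K L A ≠ 0 := by
      rw [Ne, FaithfulSMul.algebraMap_eq_zero_iff]; exact hA
    set p : K := (B ^ 2 - 4 * A * C) / (4 * A ^ 2) with hp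
    set q : K := (2 * B * D - 4 * A * E) / (4 * A ^ 2) with hq
    set r : K := (D ^ 2 - 4 * A * F) / (4 * A ^ 2) with hr
    have hkey : (y + algebraMap K L (B / (2 * A)) * x + algebraMap K L (D / (2 * A))) ^ 2 =
        algebraMap K L p * x ^ 2 + algebraMap K L q * x + algebraMap K L r := by
      have h4 : algebraMap K L (4 * A ^ 2) ≠ 0 := by
        rw [Ne, FaithfulSMul.algebraMap_eq_zero_iff]
        exact mul_ne_zero (by norm_num) (pow_ne_zero 2 hA)
      apply mul_left_cancel₀ h4
      have e1 : algebraMap K L (4 * A ^ 2) * algebraMap K L p = algebraMap K L (B ^ 2 - 4 * A * C) := by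
        rw [← map_mul]; congr 1; rw [hp]; field_simp
      have e2 : algebraMap K L (4 * A ^ 2) * algebraMap K L q =
          algebraMap K L (2 * B * D - 4 * A * E) := by
        rw [← map_mul]; congr 1; rw [hq]; field_simp
      have e3 : algebraMap K L (4 * A ^ 2) * algebraMap K L r = algebraMap K L (D ^ 2 - 4 * A * F) := by
        rw [← map_mul]; congr 1; rw [hr]; field_simp
      have e4 : algebraMap K L (2 * A) * algebraMap K L (B / (2 * A)) = algebraMap K L B := by
        rw [← map_mul]; congr 1; field_simp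
      have e5 : algebraMap K L (2 * A) * algebraMap K L (D / (2 * A)) = algebraMap K L D := by
        rw [← map_mul]; congr 1; field_simp
      have e6 : algebraMap K L (4 * A ^ 2) = algebraMap K L (2 * A) ^ 2 := by
        rw [← map_pow]; congr 1; ring
      calc algebraMap K L (4 * A ^ 2) *
            (y + algebraMap K L (B / (2 * A)) * x + algebraMap K L (D / (2 * A))) ^ 2
          = (algebraMap K L (2 * A) * y + algebraMap K L (2 * A) * algebraMap K L (B / (2 * A)) * x +
              algebraMap K L (2 * A) * algebraMap K L (D / (2 * A))) ^ 2 := by rw [e6]; ring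
        _ = (algebraMap K L (2 * A) * y + algebraMap K L B * x + algebraMap K L D) ^ 2 := by
            rw [e4, e5]
        _ = algebraMap K L (4 * A ^ 2) * algebraMap K L p * x ^ 2 +
              algebraMap K L (4 * A ^ 2) * algebraMap K L q * x +
              algebraMap K L (4 * A ^ 2) * algebraMap K L r := by
            rw [e1, e2, e3]
            simp only [map_mul, map_sub, map_pow, map_ofNat]
            linear_combination 4 * algebraMap K L A * h
        _ = _ := by ring
    refine ⟨B / (2 * A), D / (2 * A), Or.inr (Or.inr ⟨p, q, r, ?_, hkey⟩)⟩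
    intro hd
    obtain ⟨a, ha⟩ := IsAlgClosed.exists_pow_nat_eq p (n := 2) (by norm_num)
    obtain ⟨b, hb⟩ := IsAlgClosed.exists_pow_nat_eq r (n := 2) (by norm_num)
    have hq2 : q ^ 2 = (2 * a * b) ^ 2 := by
      have : q ^ 2 = 4 * p * r := sub_eq_zero.1 hd
      rw [this, ← ha, ← hb]; ring
    have hex : ∃ b' : K, b' ^ 2 = r ∧ q = 2 * a * b' := by
      rcases sq_eq_sq_iff_eq_or_eq_neg.1 hq2 with h3 | h3
      · exact ⟨b, hb, h3⟩
      · exact ⟨-b, by rw [neg_sq, hb], by rw [h3]; ring⟩
    obtain ⟨b', hb', hqq⟩ := hex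
    have hfac : (y + algebraMap K L (B / (2 * A)) * x + algebraMap K L (D / (2 * A))) ^ 2 =
        (algebraMap K L a * x + algebraMap K L b') ^ 2 := by
      rw [hkey, ← ha, ← hb', hqq]
      simp only [map_mul, map_pow, map_ofNat]
      ring
    rcases sq_eq_sq_iff_eq_or_eq_neg.1 hfac with h3 | h3
    · have := hi (D / (2 * A) - b') (B / (2 * A) - a) 1 (by
        simp only [map_sub, map_one]
        linear_combination h3)
      exact one_ne_zero this.2.2
    · have := hi (D / (2 * A) + b') (B / (2 * A) + a) 1 (by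
        simp only [map_add, map_one]
        linear_combination h3)
      exact one_ne_zero this.2.2

end Pool.Agent.QR
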